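import Mathlib

set_option autoImplicit false

namespace Pool.Agent.X141.Euler

open SimpleGraph Finset

variable {V : Type*} [Fintype V] [DecidableEq V]

/-- In a connected graph there is a closed walk using every dart exactly once. -/
theorem exists_closed_walk (G : SimpleGraph V) [DecidableRel G.Adj] (hG : G.Connected) :
    ∃ (u : V) (w : G.Walk u u), w.darts.Nodup ∧ ∀ d : G.Dart, d ∈ w.darts := by
  classical
  by_contra hcon
  push Not at hcon
  have key : ∀ k : ℕ, ∃ (u : V) (w : G.Walk u u), w.darts.Nodup ∧
      (∀ d : G.Dart, d ∈ w.darts → d.symm ∈ w.darts) ∧ k ≤ w.length := by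
    intro k
    induction k with
    | zero =>
      obtain ⟨u⟩ := hG.nonempty
      exact ⟨u, Walk.nil, by simp, by simp, by simp⟩
    | succ k ih =>
      obtain ⟨u, w, hn, hs, hk⟩ := ih
      obtain ⟨d0, hd0⟩ := hcon u w hn
      have hd : ∃ d : G.Dart, d ∉ w.darts ∧ d.fst ∈ w.support := by
        by_cases h : d0.fst ∈ w.support
        · exact ⟨d0, hd0, h⟩
        · obtain ⟨p⟩ := hG.preconnected u d0.fst
          obtain ⟨d, _, h1, h2⟩ := p.exists_boundary_dart {x | x ∈ w.support}
            (by simp) (by simpa using h)
          refine ⟨d, fun hmem => ?_, h1⟩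
          exact h2 (Walk.dart_snd_mem_support_of_mem_darts w hmem)
      obtain ⟨d, hdn, hdf⟩ := hd
      have hsplit : (w.takeUntil d.fst hdf).append (w.dropUntil d.fst hdf) = w :=
        Walk.take_spec w hdf
      set w1 := w.takeUntil d.fst hdf with hw1
      set w2 := w.dropUntil d.fst hdf with hw2
      have hdarts : w.darts = w1.darts ++ w2.darts := by
        rw [← hsplit, Walk.darts_append]
      have hds : d.symm ∉ w.darts := by
        intro h
        have := hs _ h
        simp at this
        exact hdn this
      have hne : d ≠ d.symm := fun h => by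
        have h1 := d.adj.ne
        have h2 : d.fst = d.symm.fst := by rw [← h]
        exact h1 h2
      refine ⟨u, w1.append (Walk.cons d.adj (Walk.cons d.adj.symm w2)), ?_, ?_, ?_⟩
      · rw [Walk.darts_append, Walk.darts_cons, Walk.darts_cons]
        have e1 : (⟨(d.fst, d.snd), d.adj⟩ : G.Dart) = d := rfl
        have e2 : (⟨(d.snd, d.fst), d.adj.symm⟩ : G.Dart) = d.symm := rfl
        rw [e1, e2]
        have hperm : (w1.darts ++ d :: d.symm :: w2.darts).Perm (d :: d.symm :: (w1.darts ++ w2.darts)) := by
          refine List.perm_middle.trans ?_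
          exact List.Perm.cons _ List.perm_middle
        rw [hperm.nodup_iff, ← hdarts]
        simp [hdn, hds, hn, hne]
      · intro e he
        rw [Walk.darts_append, Walk.darts_cons, Walk.darts_cons] at he ⊢
        have e1 : (⟨(d.fst, d.snd), d.adj⟩ : G.Dart) = d := rfl
        have e2 : (⟨(d.snd, d.fst), d.adj.symm⟩ : G.Dart) = d.symm := rfl
        rw [e1, e2] at he ⊢
        simp only [List.mem_append, List.mem_cons] at he ⊢
        have hmem : ∀ x, x ∈ w.darts ↔ x ∈ w1.darts ∨ x ∈ w2.darts := by
          intro x; rw [hdarts, List.mem_append]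
        rcases he with he | he | he | he
        · have := (hmem _).1 (hs e ((hmem e).2 (Or.inl he)))
          tauto
        · subst he; tauto
        · subst he; simp
        · have := (hmem _).1 (hs e ((hmem e).2 (Or.inr he)))
          tauto
      · have : w.length = w1.length + w2.length := by
          rw [← hsplit, Walk.length_append]
        rw [Walk.length_append, Walk.length_cons, Walk.length_cons]
        omega
  obtain ⟨u, w, hn, _, hk⟩ := key (Fintype.card G.Dart + 1)
  have := hn.length_le_card
  rw [Walk.length_darts] at this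
  omega


theorem sum_range_walk {G : SimpleGraph V} (h : V → V → ℝ) {u v : V} (w : G.Walk u v) :
    ∑ i ∈ Finset.range w.length, h (w.getVert i) (w.getVert (i + 1)) =
      (w.darts.map (fun d => h d.fst d.snd)).sum := by
  induction w with
  | nil => simp
  | cons hadj p ih =>
    rw [Walk.length_cons, Finset.sum_range_succ', Walk.darts_cons, List.map_cons, List.sum_cons,
      ← ih, add_comm]
    congr 1
    simp [Walk.getVert_cons_succ]

theorem sum_darts (G : SimpleGraph V) [DecidableRel G.Adj] (h : V → V → ℝ) :
    ∑ d : G.Dart, h d.fst d.snd = ∑ u, ∑ v, if G.Adj u v then h u v else 0 := by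
  classical
  rw [← Finset.sum_product', ← Finset.sum_filter]
  refine Finset.sum_bij' (i := fun d _ => (d.fst, d.snd))
    (j := fun p hp => (⟨p, by simpa using hp⟩ : G.Dart)) ?_ ?_ ?_ ?_ ?_
  · intro d _
    simpa using d.adj
  · intro p hp
    simp
  · intro d _
    rfl
  · intro p hp
    rfl
  · intro d _
    rfl

theorem sum_darts_fst (G : SimpleGraph V) [DecidableRel G.Adj] (h : V → ℝ) :
    ∑ d : G.Dart, h d.fst = ∑ u, (G.degree u : ℝ) * h u := by
  rw [sum_darts G (fun a _ => h a)]
  refine Finset.sum_congr rfl fun u _ => ?_
  rw [← Finset.sum_filter, Finset.sum_const, nsmul_eq_mul]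
  congr 2
  rw [← SimpleGraph.card_neighborFinset_eq_degree]
  congr 1
  ext v
  simp

end Pool.Agent.X141.Euler
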