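import Pool.Agent.X141.Wirt
import Pool.Agent.X141.Euler

set_option autoImplicit false

namespace Pool.Agent.X141.RelMain

open SimpleGraph Finset Pool.Agent.X141.Euler Pool.Agent.X141.Wirt

variable {V : Type*} [Fintype V] [DecidableEq V]

theorem sum_zmod_eq_range {N : ℕ} [NeZero N] (h : ℕ → ℝ) :
    ∑ j : ZMod N, h j.val = ∑ i ∈ Finset.range N, h i := by
  rw [← Fin.sum_univ_eq_sum_range]
  obtain ⟨k, rfl⟩ : ∃ k, N = k + 1 := Nat.exists_eq_succ_of_ne_zero (NeZero.ne N)
  rfl

/-- The sharp Poincaré inequality for simple random walk on a connected graph with `m` edges. -/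
theorem sharp (G : SimpleGraph V) [DecidableRel G.Adj] (hG : G.Connected)
    (hm : 1 ≤ G.edgeFinset.card) (f : V → ℝ) :
    ∃ c : ℝ, (1 - Real.cos (Real.pi / G.edgeFinset.card)) *
      ∑ v, (G.degree v : ℝ) * (f v - c) ^ 2 ≤
        (1 / 2 : ℝ) * ∑ u, ∑ v, (if G.Adj u v then (f u - f v) ^ 2 else 0) := by
  classical
  obtain ⟨u, w, hn, hall⟩ := exists_closed_walk G hG
  have huniv : w.darts.toFinset = Finset.univ := by
    ext d
    simp [hall d]
  have hlen : w.length = 2 * G.edgeFinset.card := by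
    rw [← Walk.length_darts, ← List.toFinset_card_of_nodup hn, huniv, Finset.card_univ,
      G.dart_card_eq_twice_card_edges]
  set m := G.edgeFinset.card with hmdef
  set N := w.length with hN
  have hNpos : 0 < N := by omega
  have : NeZero N := ⟨hNpos.ne'⟩
  have hsum : ∀ h : V → V → ℝ, ∑ i ∈ Finset.range N, h (w.getVert i) (w.getVert (i + 1)) =
      ∑ d : G.Dart, h d.fst d.snd := by
    intro h
    rw [hN, sum_range_walk h w, ← huniv, List.sum_toFinset _ hn]
  have hval : ∀ j : ZMod N, w.getVert (j + 1).val = w.getVert (j.val + 1) := by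
    intro j
    have hj := ZMod.val_lt j
    rw [ZMod.val_add, ZMod.val_one'' (by omega)]
    by_cases hlt : j.val + 1 < N
    · rw [Nat.mod_eq_of_lt hlt]
    · have hEq : j.val + 1 = N := by omega
      rw [hEq, Nat.mod_self, Walk.getVert_zero, hN, Walk.getVert_length]
  set c : ℝ := (∑ j : ZMod N, f (w.getVert j.val)) / N with hc
  refine ⟨c, ?_⟩
  have hNR : (N : ℝ) ≠ 0 := by exact_mod_cast hNpos.ne'
  have hW := wirtinger (N := N) (fun j => f (w.getVert j.val) - c) (by
    rw [Finset.sum_sub_distrib, Finset.sum_const, Finset.card_univ, ZMod.card, nsmul_eq_mul, hc]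
    field_simp
    ring)
  have h1 : ∑ j : ZMod N, (f (w.getVert j.val) - c) ^ 2 = ∑ v, (G.degree v : ℝ) * (f v - c) ^ 2 := by
    rw [sum_zmod_eq_range (fun i => (f (w.getVert i) - c) ^ 2),
      hsum (fun a _ => (f a - c) ^ 2), sum_darts_fst G (fun a => (f a - c) ^ 2)]
  have h2 : ∑ j : ZMod N, (f (w.getVert (j + 1).val) - c - (f (w.getVert j.val) - c)) ^ 2 =
      ∑ u, ∑ v, (if G.Adj u v then (f u - f v) ^ 2 else 0) := by
    simp_rw [hval]
    rw [sum_zmod_eq_range (fun i => (f (w.getVert (i + 1)) - c - (f (w.getVert i) - c)) ^ 2),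
      hsum (fun a b => (f b - c - (f a - c)) ^ 2), sum_darts G (fun a b => (f b - c - (f a - c)) ^ 2)]
    refine Finset.sum_congr rfl fun a _ => Finset.sum_congr rfl fun b _ => ?_
    split_ifs
    · ring
    · rfl
  rw [h1, h2] at hW
  have h3 : 2 * Real.pi / (N : ℝ) = Real.pi / m := by
    rw [hlen]
    push_cast
    have : (m : ℝ) ≠ 0 := by
      have : m ≠ 0 := by omega
      exact_mod_cast this
    field_simp
  rw [h3] at hW
  linarith

end Pool.Agent.X141.RelMain
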