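import Pool.Agent.X141.FDMain

set_option autoImplicit false

namespace Pool.Agent.X141.FD

open MeasureTheory ProbabilityTheory Filter Topology
open scoped ENNReal

/-- The position at time `t` of the walk with increments `ω 0, ω 1, …`: `X_0 = 1`,
`X_{t+1} = X_t ω_t`. -/
def walk {G : Type*} [Group G] (ω : ℕ → G) : ℕ → G
  | 0 => 1
  | (t + 1) => walk ω t * ω t

/-- `f` converges along `μ`-random walks: for each starting point `x` the sequence
`f (x X_t)` converges almost surely, where the increments of `X` are i.i.d. with law `μ`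
(the measure `Measure.infinitePi fun _ : ℕ => μ` on the space of increment sequences). -/
def ConvergesAlongWalks {G : Type*} [Group G] [MeasurableSpace G] (μ : Measure G) (f : G → ℝ) :
    Prop :=
  ∀ x : G, ∀ᵐ ω ∂(Measure.infinitePi fun _ : ℕ => μ),
    ∃ L : ℝ, Tendsto (fun t => f (x * walk ω t)) atTop (𝓝 L)

/-- The linear span of the orbit of `f` under `(γ.f)(x) = f(γ⁻¹x)`. -/
def orbitSpan {G : Type*} [Group G] (f : G → ℝ) : Submodule ℝ (G → ℝ) :=
  Submodule.span ℝ (Set.range fun γ : G => fun x => f (γ⁻¹ * x))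

section algebra

variable {G : Type*} [Group G]

theorem orbitSpan_transl (f : G → ℝ) (γ : G) (h : G → ℝ) (hh : h ∈ orbitSpan f) :
    (fun x => h (γ * x)) ∈ orbitSpan f := by
  unfold orbitSpan at hh ⊢
  induction hh using Submodule.span_induction with
  | mem h hmem =>
    obtain ⟨δ, rfl⟩ := hmem
    apply Submodule.subset_span
    refine ⟨γ⁻¹ * δ, ?_⟩
    ext x
    simp [mul_assoc]
  | zero => exact Submodule.zero_mem _
  | add a b _ _ ha hb => exact Submodule.add_mem _ ha hb
  | smul r a _ ha => exact Submodule.smul_mem _ r ha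

/-- Translation `h ↦ h(γ ·)` on the orbit span. -/
def transl (f : G → ℝ) (γ : G) : orbitSpan f →ₗ[ℝ] orbitSpan f where
  toFun h := ⟨fun x => h.1 (γ * x), orbitSpan_transl f γ h.1 h.2⟩
  map_add' _ _ := rfl
  map_smul' _ _ := rfl

theorem transl_mul (f : G → ℝ) (γ δ : G) : transl f (γ * δ) = transl f δ ∘ₗ transl f γ := by
  ext h x
  simp [transl, mul_assoc]

theorem transl_one (f : G → ℝ) : transl f (1 : G) = LinearMap.id := by
  ext h x
  simp [transl]

variable {ι : Type*} [Fintype ι] [DecidableEq ι]

/-- The representation on coordinates. -/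
noncomputable def opHom (f : G → ℝ) (B : Module.Basis ι ℝ (orbitSpan f)) :
    G →* ((ι → ℝ) →L[ℝ] (ι → ℝ)) where
  toFun γ := LinearMap.toContinuousLinearMap
    (Matrix.toLin' (LinearMap.toMatrix B B (transl f γ)).transpose)
  map_one' := by
    rw [transl_one, LinearMap.toMatrix_id, Matrix.transpose_one, Matrix.toLin'_one]
    rfl
  map_mul' γ δ := by
    rw [transl_mul, LinearMap.toMatrix_comp B B B, Matrix.transpose_mul, Matrix.toLin'_mul]
    rfl

/-- The evaluation vector. -/
noncomputable def evalVec (f : G → ℝ) (B : Module.Basis ι ℝ (orbitSpan f)) (y : G) : ι → ℝ :=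
  fun j => (B j : G → ℝ) y

theorem opHom_evalVec (f : G → ℝ) (B : Module.Basis ι ℝ (orbitSpan f)) (γ y : G) :
    opHom f B γ (evalVec f B y) = evalVec f B (γ * y) := by
  ext j
  have h1 : (transl f γ (B j) : G → ℝ) y = (B j : G → ℝ) (γ * y) := rfl
  have h2 := B.sum_repr (transl f γ (B j))
  have h3 := congrFun (congrArg (fun z : orbitSpan f => (z : G → ℝ)) h2) y
  simp only [Submodule.coe_sum, Submodule.coe_smul, Finset.sum_apply, Pi.smul_apply,
    smul_eq_mul] at h3
  rw [h1] at h3
  have h4 : opHom f B γ (evalVec f B y) j =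
      ((LinearMap.toMatrix B B (transl f γ)).transpose.mulVec (evalVec f B y)) j := rfl
  rw [h4, Matrix.mulVec, dotProduct]
  simp only [Matrix.transpose_apply, LinearMap.toMatrix_apply, evalVec]
  exact h3

end algebra

section topology

variable {G : Type*} [Group G] [TopologicalSpace G] [IsTopologicalGroup G]
variable {ι : Type*} [Fintype ι] [DecidableEq ι]

theorem orbitSpan_continuous (f : G → ℝ) (hf : Continuous f) (h : G → ℝ)
    (hh : h ∈ orbitSpan f) : Continuous h := by
  unfold orbitSpan at hh
  induction hh using Submodule.span_induction with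
  | mem h hmem =>
    obtain ⟨δ, rfl⟩ := hmem
    exact hf.comp (continuous_const.mul continuous_id)
  | zero => exact continuous_const
  | add a b _ _ ha hb => exact ha.add hb
  | smul r a _ ha => exact ha.const_smul r

theorem opHom_continuous (f : G → ℝ) (hf : Continuous f)
    (B : Module.Basis ι ℝ (orbitSpan f)) : Continuous (opHom f B) := by
  have : FiniteDimensional ℝ (orbitSpan f) := Module.Basis.finiteDimensional_of_finite B
  have h1 : Continuous fun γ : G => (LinearMap.toMatrix B B (transl f γ)).transpose := by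
    refine continuous_matrix fun i j => ?_
    simp only [Matrix.transpose_apply, LinearMap.toMatrix_apply]
    have h2 : Continuous (B.coord j) := LinearMap.continuous_of_finiteDimensional _
    have h3 : Continuous fun γ : G => transl f γ (B i) := by
      rw [continuous_induced_rng]
      refine continuous_pi fun y => ?_
      exact (orbitSpan_continuous f hf _ (B i).2).comp (continuous_id.mul continuous_const)
    exact h2.comp h3
  have h4 : Continuous (fun M : Matrix ι ι ℝ =>
      (LinearMap.toContinuousLinearMap (Matrix.toLin' M) : (ι → ℝ) →L[ℝ] (ι → ℝ))) := by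
    let T : Matrix ι ι ℝ →ₗ[ℝ] ((ι → ℝ) →L[ℝ] (ι → ℝ)) :=
      (LinearMap.toContinuousLinearMap (𝕜 := ℝ) (E := ι → ℝ) (F' := ι → ℝ)).toLinearMap ∘ₗ
        (Matrix.toLin' (R := ℝ) (m := ι) (n := ι)).toLinearMap
    exact LinearMap.continuous_of_finiteDimensional T
  exact h4.comp h1

end topology

section final

variable {G : Type*} [Group G] [TopologicalSpace G] [IsTopologicalGroup G] [MeasurableSpace G]
  [BorelSpace G]

theorem constant_of_finite_orbit (μ : Measure G) [IsProbabilityMeasure μ]
    (hadapted : ∀ H : Subgroup G, IsClosed (H : Set G) → μ (H : Set G) = 1 → H = ⊤)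
    (hsymm : ∀ A : Set G, MeasurableSet A → μ (Inv.inv ⁻¹' A) = μ A)
    (f : G → ℝ) (hf : Continuous f) (hconv : ConvergesAlongWalks μ f)
    (hfin : FiniteDimensional ℝ (orbitSpan f)) : ∃ c : ℝ, ∀ x, f x = c := by
  classical
  -- a basis of the orbit span made of translates of `f`
  obtain ⟨b, hbsub, hspan, hli⟩ := exists_linearIndependent ℝ
    (Set.range fun γ : G => fun x : G => f (γ⁻¹ * x))
  have hspan' : Submodule.span ℝ b = orbitSpan f := hspan
  have hbmem : ∀ j : b, (j : G → ℝ) ∈ orbitSpan f := fun j => by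
    rw [← hspan']
    exact Submodule.subset_span j.2
  have hli' : LinearIndependent ℝ (fun j : b => (⟨j, hbmem j⟩ : orbitSpan f)) := by
    apply LinearIndependent.of_comp (orbitSpan f).subtype
    exact hli
  have hfinb : Finite b := by
    exact hli'.finite
  have : Fintype b := Fintype.ofFinite b
  have hspan2 : ⊤ ≤ Submodule.span ℝ (Set.range fun j : b => (⟨j, hbmem j⟩ : orbitSpan f)) := by
    intro z _
    have hz : (z : G → ℝ) ∈ Submodule.span ℝ b := by
      rw [hspan']
      exact z.2
    have hmap : (Submodule.span ℝ (Set.range fun j : b => (⟨j, hbmem j⟩ : orbitSpan f))).map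
        (orbitSpan f).subtype = Submodule.span ℝ b := by
      rw [Submodule.map_span]
      congr 1
      ext h
      constructor
      · rintro ⟨_, ⟨j, rfl⟩, rfl⟩
        exact j.2
      · intro hh
        exact ⟨_, ⟨⟨h, hh⟩, rfl⟩, rfl⟩
    rw [← hmap] at hz
    obtain ⟨w, hw, hwz⟩ := hz
    have : w = z := Subtype.ext hwz
    rwa [← this]
  let B : Module.Basis b ℝ (orbitSpan f) := Module.Basis.mk hli' hspan2
  have hB : ∀ (j : b) (y : G), (B j : G → ℝ) y = (j : G → ℝ) y := by
    intro j y
    simp [B]
  -- the group of invertible operators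
  let Γ := ((b → ℝ) →L[ℝ] (b → ℝ))ˣ
  let _ : MeasurableSpace Γ := borel Γ
  have : BorelSpace Γ := ⟨rfl⟩
  have : SecondCountableTopology Γ := by
    have h2 : SecondCountableTopology ((b → ℝ) →L[ℝ] (b → ℝ)) := inferInstance
    have h3 : SecondCountableTopology ((b → ℝ) →L[ℝ] (b → ℝ))ᵐᵒᵖ :=
      MulOpposite.opHomeomorph.symm.isEmbedding.secondCountableTopology
    exact Units.isEmbedding_embedProduct.secondCountableTopology
  let A := opHom f B
  have hA : Continuous A := opHom_continuous f hf B
  let Φ : G →* Γ := MonoidHom.toHomUnits A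
  have hΦ : Continuous Φ := by
    rw [Units.continuous_iff]
    constructor
    · exact hA
    · exact hA.comp continuous_inv
  let ρ : Γ →* ((b → ℝ) →L[ℝ] (b → ℝ)) := Units.coeHom _
  have hρ : Measurable fun p : Γ × (b → ℝ) => ρ p.1 p.2 := by
    have hc : Continuous fun p : Γ × (b → ℝ) => ρ p.1 p.2 :=
      (Units.continuous_val.comp continuous_fst).clm_apply continuous_snd
    exact hc.measurable
  let ν : Measure Γ := μ.map Φ
  have : IsProbabilityMeasure ν := Measure.isProbabilityMeasure_map hΦ.measurable.aemeasurable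
  have hμinv : μ.map (fun x => x⁻¹) = μ := by
    ext s hs
    rw [Measure.map_apply measurable_inv hs]
    exact hsymm s hs
  have hνinv : ν.map (fun x => x⁻¹) = ν := by
    have h1 : ν.map (fun x => x⁻¹) = μ.map (fun x => (Φ x)⁻¹) :=
      Measure.map_map measurable_inv hΦ.measurable
    have h2 : (fun x => (Φ x)⁻¹) = Φ ∘ (fun x : G => x⁻¹) := by
      ext1 x
      exact (map_inv Φ x).symm
    rw [h1, h2, ← Measure.map_map hΦ.measurable measurable_inv, hμinv]
  let P : Measure (ℕ → G) := Measure.infinitePi fun _ : ℕ => μ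
  let g : ℕ → (ℕ → G) → Γ := fun i ω => Φ (ω i)
  have hg : ∀ i, Measurable (g i) := fun i => hΦ.measurable.comp (measurable_pi_apply i)
  have hind : iIndepFun g P := iIndepFun_infinitePi (P := fun _ : ℕ => μ) (X := fun _ => Φ)
    (fun _ => hΦ.measurable)
  have hlaw : ∀ i, P.map (g i) = ν := by
    intro i
    have h1 : g i = Φ ∘ (fun ω : ℕ → G => ω i) := rfl
    rw [h1, ← Measure.map_map hΦ.measurable (measurable_pi_apply i),
      Measure.infinitePi_map_eval (fun _ : ℕ => μ) i]
  have hseg : ∀ t ω, seg g 0 t ω = Φ (walk ω t) := by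
    intro t ω
    induction t with
    | zero => simp [seg, walk]
    | succ t ih => simp only [seg, walk, zero_add, ih, map_mul, g]
  have hact : ∀ x y : G, ρ (Φ x) (evalVec f B y) = evalVec f B (x * y) := fun x y =>
    opHom_evalVec f B x y
  have hconvE : ∀ᵐ ω ∂P, ∃ L, Tendsto (fun t => ρ (seg g 0 t ω) (evalVec f B 1)) atTop (𝓝 L) := by
    have h1 : ∀ᵐ ω ∂P, ∀ j : b, ∃ L : ℝ, Tendsto (fun t => (j : G → ℝ) (walk ω t)) atTop (𝓝 L) := by
      rw [ae_all_iff]
      intro j
      obtain ⟨γ, hγ⟩ := hbsub j.2
      filter_upwards [hconv γ⁻¹] with ω hω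
      rw [← hγ]
      exact hω
    filter_upwards [h1] with ω hω
    choose L hL using hω
    refine ⟨L, ?_⟩
    rw [tendsto_pi_nhds]
    intro j
    have h2 : ∀ t, ρ (seg g 0 t ω) (evalVec f B 1) j = (j : G → ℝ) (walk ω t) := by
      intro t
      rw [hseg, hact, mul_one]
      exact hB j _
    simp_rw [h2]
    exact hL j
  have hmain := main_linear ρ hρ ν P hνinv g hg hind hlaw (evalVec f B 1) hconvE
  have hmainG : ∀ᵐ x ∂μ, evalVec f B x = evalVec f B 1 := by
    have h1 := ae_of_ae_map hΦ.measurable.aemeasurable hmain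
    filter_upwards [h1] with x hx
    rw [hact, mul_one] at hx
    exact hx
  let H : Subgroup G :=
    { carrier := {x | evalVec f B x = evalVec f B 1}
      one_mem' := rfl
      mul_mem' := by
        intro x y hx hy
        change _ = _ at hx hy ⊢
        rw [← hact x y, hy, hact x 1, mul_one, hx]
      inv_mem' := by
        intro x hx
        change _ = _ at hx ⊢
        have h1 := hact x⁻¹ x
        rw [hx, hact, inv_mul_cancel, mul_one] at h1
        exact h1 }
  have hcl : IsClosed (H : Set G) := by
    have hcont : Continuous fun x : G => evalVec f B x := by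
      refine continuous_pi fun j => ?_
      exact orbitSpan_continuous f hf _ (B j).2
    exact isClosed_eq hcont continuous_const
  have hH1 : μ (H : Set G) = 1 := by
    rw [← prob_compl_eq_zero_iff hcl.measurableSet]
    exact hmainG
  have hHtop := hadapted H hcl hH1
  have hall : ∀ x, evalVec f B x = evalVec f B 1 := fun x => by
    have : x ∈ H := by
      rw [hHtop]
      trivial
    exact this
  have hfV : f ∈ orbitSpan f := by
    apply Submodule.subset_span
    exact ⟨1, by ext x; simp⟩
  refine ⟨f 1, fun x => ?_⟩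
  have h1 : ∀ y : G, f y = ∑ j, B.repr ⟨f, hfV⟩ j * evalVec f B y j := by
    intro y
    have h2 := B.sum_repr ⟨f, hfV⟩
    have h3 := congrFun (congrArg (fun z : orbitSpan f => (z : G → ℝ)) h2) y
    simp only [Submodule.coe_sum, Submodule.coe_smul, Finset.sum_apply, Pi.smul_apply,
      smul_eq_mul] at h3
    exact h3.symm
  rw [h1 x, h1 1, hall x]

end final

end Pool.Agent.X141.FD
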