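import Pool.Agent.X141.FDWalk

set_option autoImplicit false

namespace Pool.Agent.X141.FD

open MeasureTheory ProbabilityTheory Filter Topology
open scoped ENNReal

section main

variable {Γ : Type*} [Group Γ] [MeasurableSpace Γ] [MeasurableMul₂ Γ]
variable {E : Type*} [NormedAddCommGroup E] [NormedSpace ℝ E] [FiniteDimensional ℝ E]
  [MeasurableSpace E] [BorelSpace E]

/-- Truncated size of `ρ(X_t) u`. -/
noncomputable def pp (ρ : Γ →* (E →L[ℝ] E)) (ν : Measure Γ) (t : ℕ) (u : E) : ℝ≥0∞ :=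
  ∫⁻ x, min 1 ‖ρ x u‖ₑ ∂(npow ν t)

variable (ρ : Γ →* (E →L[ℝ] E)) (hρ : Measurable fun p : Γ × E => ρ p.1 p.2)
variable (ν : Measure Γ) [IsProbabilityMeasure ν]

include hρ

theorem meas_one (u : E) : Measurable fun x : Γ => ρ x u :=
  hρ.comp (measurable_id.prodMk measurable_const)

theorem meas_pp (t : ℕ) : Measurable (pp ρ ν t) := by
  have h : Measurable (fun p : E × Γ => min 1 ‖ρ p.2 p.1‖ₑ) :=
    measurable_const.min (hρ.comp (measurable_snd.prodMk measurable_fst)).enorm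
  exact Measurable.lintegral_prod_right' h

omit [MeasurableMul₂ Γ] in
theorem meas_D (v : E) : Measurable fun y : Γ => ρ y v - v := by
  have : SecondCountableTopology E := inferInstance
  exact (hρ.comp (measurable_id.prodMk measurable_const)).sub_const v

variable {Ω : Type*} [MeasurableSpace Ω] (P : Measure Ω) [IsProbabilityMeasure P]

theorem lemA (g : ℕ → Ω → Γ) (hg : ∀ i, Measurable (g i)) (hind : iIndepFun g P)
    (hlaw : ∀ i, P.map (g i) = ν) (v : E)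
    (hconv : ∀ᵐ ω ∂P, ∃ L, Tendsto (fun t => ρ (seg g 0 t ω) v) atTop (𝓝 L)) (s : ℕ) :
    Tendsto (fun t => ∫⁻ y, pp ρ ν t (ρ y v - v) ∂(npow ν s)) atTop (𝓝 0) := by
  have hmeas : Measurable (fun z : Γ × Γ => min 1 ‖ρ z.1 (ρ z.2 v - v)‖ₑ) :=
    measurable_const.min (hρ.comp (measurable_fst.prodMk
      ((meas_D ρ hρ v).comp measurable_snd))).enorm
  have h1 : ∀ t, ∫⁻ y, pp ρ ν t (ρ y v - v) ∂(npow ν s) =
      ∫⁻ ω, min 1 ‖ρ (seg g 0 (t + s) ω) v - ρ (seg g 0 t ω) v‖ₑ ∂P := by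
    intro t
    unfold pp
    rw [← lintegral_prod_symm' (μ := npow ν t) (ν := npow ν s)
      (fun z : Γ × Γ => min 1 ‖ρ z.1 (ρ z.2 v - v)‖ₑ) hmeas,
      ← seg_joint g hg hind ν hlaw t s,
      lintegral_map hmeas ((seg_measurable g hg 0 t).prodMk (seg_measurable g hg t s))]
    refine lintegral_congr fun ω => ?_
    rw [seg_add, map_mul, map_sub]
    rfl
  simp_rw [h1]
  have h2 : ∫⁻ ω, (0 : ℝ≥0∞) ∂P = 0 := by simp
  rw [← h2]
  refine tendsto_lintegral_of_dominated_convergence (fun _ => 1) ?_ ?_ ?_ ?_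
  · intro t
    exact measurable_const.min (((meas_one ρ hρ v).comp (seg_measurable g hg 0 (t + s))).sub
      ((meas_one ρ hρ v).comp (seg_measurable g hg 0 t))).enorm
  · intro t
    exact Eventually.of_forall fun ω => min_le_left _ _
  · simp
  · filter_upwards [hconv] with ω hω
    obtain ⟨L, hL⟩ := hω
    have h3 : Tendsto (fun t => ρ (seg g 0 (t + s) ω) v - ρ (seg g 0 t ω) v) atTop (𝓝 (L - L)) :=
      ((tendsto_add_atTop_iff_nat s).2 hL).sub hL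
    rw [sub_self] at h3
    have h4 := h3.enorm
    rw [enorm_zero] at h4
    have h5 := (tendsto_const_nhds (x := (1 : ℝ≥0∞)) (f := (atTop : Filter ℕ))).min h4
    simpa using h5

theorem lemB (v : E)
    (hA : ∀ s, Tendsto (fun t => ∫⁻ y, pp ρ ν t (ρ y v - v) ∂(npow ν s)) atTop (𝓝 0)) :
    ∃ t : ℕ → ℕ, ∀ s, ∀ᵐ y ∂(npow ν s), Tendsto (fun k => pp ρ ν (t k) (ρ y v - v)) atTop (𝓝 0) := by
  have hchoose : ∀ k : ℕ, ∃ t : ℕ, ∀ s ≤ k, ∫⁻ y, pp ρ ν t (ρ y v - v) ∂(npow ν s) ≤ (2⁻¹ : ℝ≥0∞) ^ k := by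
    intro k
    have hpos : (0 : ℝ≥0∞) < 2⁻¹ ^ k := by
      apply ENNReal.pow_pos
      simp
    have h : ∀ s, ∀ᶠ t in atTop, ∫⁻ y, pp ρ ν t (ρ y v - v) ∂(npow ν s) ≤ (2⁻¹ : ℝ≥0∞) ^ k := fun s =>
      (hA s).eventually (ge_mem_nhds hpos)
    have h2 : ∀ᶠ t in atTop, ∀ s ∈ Finset.range (k + 1),
        ∫⁻ y, pp ρ ν t (ρ y v - v) ∂(npow ν s) ≤ (2⁻¹ : ℝ≥0∞) ^ k := by
      rw [Filter.eventually_all_finset]
      intro s _
      exact h s
    obtain ⟨t, ht⟩ := h2.exists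
    exact ⟨t, fun s hs => ht s (Finset.mem_range.2 (by omega))⟩
  choose t ht using hchoose
  refine ⟨t, fun s => ?_⟩
  have hm : ∀ k, Measurable fun y : Γ => pp ρ ν (t k) (ρ y v - v) := fun k =>
    (meas_pp ρ hρ ν (t k)).comp (meas_D ρ hρ v)
  have h1 : ∫⁻ y, ∑' k, pp ρ ν (t (k + s)) (ρ y v - v) ∂(npow ν s) ≠ ∞ := by
    rw [lintegral_tsum fun k => (hm (k + s)).aemeasurable]
    have h2 : ∑' k : ℕ, ∫⁻ y, pp ρ ν (t (k + s)) (ρ y v - v) ∂(npow ν s) ≤
        ∑' k : ℕ, (2⁻¹ : ℝ≥0∞) ^ k := by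
      apply ENNReal.tsum_le_tsum
      intro k
      refine (ht (k + s) s (by omega)).trans ?_
      rw [pow_add]
      calc (2⁻¹ : ℝ≥0∞) ^ k * 2⁻¹ ^ s ≤ 2⁻¹ ^ k * 1 := by
            gcongr
            apply pow_le_one₀ (by simp)
            simp
        _ = _ := by rw [mul_one]
    refine ne_top_of_le_ne_top ?_ h2
    rw [ENNReal.tsum_geometric]
    simp
  have h3 := ae_lt_top (Measurable.tsum fun k => hm (k + s)) h1
  filter_upwards [h3] with y hy
  have h4 := ENNReal.tendsto_atTop_zero_of_tsum_ne_top hy.ne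
  exact (tendsto_add_atTop_iff_nat s).1 h4

omit hρ [FiniteDimensional ℝ E] [MeasurableSpace E] [BorelSpace E] in
theorem min_add (a b : E) : min 1 ‖a + b‖ₑ ≤ min 1 ‖a‖ₑ + min 1 ‖b‖ₑ := by
  by_cases ha : 1 ≤ ‖a‖ₑ
  · rw [min_eq_left ha]
    exact (min_le_left _ _).trans le_self_add
  by_cases hb : 1 ≤ ‖b‖ₑ
  · rw [min_eq_left hb]
    exact (min_le_left _ _).trans le_add_self
  rw [min_eq_right (not_le.1 ha).le, min_eq_right (not_le.1 hb).le]
  exact (min_le_right _ _).trans (enorm_add_le _ _)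

omit hρ [FiniteDimensional ℝ E] [MeasurableSpace E] [BorelSpace E] in
theorem min_smul (r : ℝ) (a : E) : min 1 ‖r • a‖ₑ ≤ max 1 ‖r‖ₑ * min 1 ‖a‖ₑ := by
  by_cases ha : 1 ≤ ‖a‖ₑ
  · rw [min_eq_left ha, mul_one]
    exact (min_le_left _ _).trans (le_max_left _ _)
  rw [min_eq_right (not_le.1 ha).le, enorm_smul]
  refine (min_le_right _ _).trans ?_
  gcongr
  exact le_max_right _ _

theorem pp_add (t : ℕ) (u u' : E) : pp ρ ν t (u + u') ≤ pp ρ ν t u + pp ρ ν t u' := by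
  unfold pp
  rw [← lintegral_add_left (measurable_const.min (meas_one ρ hρ u).enorm)]
  refine lintegral_mono fun x => ?_
  simp only [map_add]
  exact min_add _ _

theorem pp_smul (t : ℕ) (r : ℝ) (u : E) : pp ρ ν t (r • u) ≤ max 1 ‖r‖ₑ * pp ρ ν t u := by
  unfold pp
  rw [← lintegral_const_mul _ (measurable_const.min (meas_one ρ hρ u).enorm)]
  refine lintegral_mono fun x => ?_
  simp only [map_smul]
  exact min_smul _ _

/-- The vectors contracted in probability along the subsequence. -/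
def contr (t : ℕ → ℕ) : Submodule ℝ E where
  carrier := {u | Tendsto (fun k => pp ρ ν (t k) u) atTop (𝓝 0)}
  zero_mem' := by
    simp [pp]
  add_mem' := by
    intro a b ha hb
    have h := Tendsto.add ha hb
    rw [add_zero] at h
    exact tendsto_of_tendsto_of_tendsto_of_le_of_le tendsto_const_nhds h (fun _ => zero_le)
      (fun k => pp_add ρ hρ ν (t k) a b)
  smul_mem' := by
    intro r a ha
    have h : Tendsto (fun k => max 1 ‖r‖ₑ * pp ρ ν (t k) a) atTop (𝓝 (max 1 ‖r‖ₑ * 0)) :=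
      ENNReal.Tendsto.const_mul ha (Or.inr (by simp))
    rw [mul_zero] at h
    exact tendsto_of_tendsto_of_tendsto_of_le_of_le tendsto_const_nhds h (fun _ => zero_le)
      (fun k => pp_smul ρ hρ ν (t k) r a)

omit hρ [BorelSpace E] [MeasurableSpace E] in
theorem exists_minimal (v : E) : ∃ U : Submodule ℝ E,
    (∀ s, ∀ᵐ y ∂(npow ν s), ρ y v - v ∈ U) ∧
    ∀ U' : Submodule ℝ E, (∀ s, ∀ᵐ y ∂(npow ν s), ρ y v - v ∈ U') → U ≤ U' := by
  obtain ⟨U, hU, hmin⟩ := IsArtinian.set_has_minimal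
    {U : Submodule ℝ E | ∀ s, ∀ᵐ y ∂(npow ν s), ρ y v - v ∈ U} ⟨⊤, by simp⟩
  refine ⟨U, hU, fun U' hU' => ?_⟩
  have hmem : U ⊓ U' ∈ {U : Submodule ℝ E | ∀ s, ∀ᵐ y ∂(npow ν s), ρ y v - v ∈ U} := by
    intro s
    filter_upwards [hU s, hU' s] with y h1 h2
    exact ⟨h1, h2⟩
  have h := hmin _ hmem
  have h2 : U ⊓ U' = U := by
    by_contra hne
    exact h (lt_of_le_of_ne inf_le_left hne)
  rw [← h2]
  exact inf_le_right

omit hρ [BorelSpace E] [MeasurableSpace E] [FiniteDimensional ℝ E] in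
theorem invariant_ae (v : E) (U : Submodule ℝ E)
    (hU : ∀ s, ∀ᵐ y ∂(npow ν s), ρ y v - v ∈ U)
    (hmin : ∀ U' : Submodule ℝ E, (∀ s, ∀ᵐ y ∂(npow ν s), ρ y v - v ∈ U') → U ≤ U') :
    ∀ᵐ x ∂ν, ∀ u ∈ U, ρ x u ∈ U := by
  have h1 : ∀ s, ∀ᵐ x ∂ν, ∀ᵐ y ∂(npow ν s), ρ (x * y) v - v ∈ U := by
    intro s
    have h := hU (s + 1)
    rw [npow_succ'] at h
    have h2 := ae_of_ae_map (f := fun z : Γ × Γ => z.1 * z.2) measurable_mul.aemeasurable h
    exact Measure.ae_ae_of_ae_prod h2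
  have h2 : ∀ᵐ x ∂ν, ρ x v - v ∈ U := by
    have := hU 1
    rwa [npow_one] at this
  filter_upwards [ae_all_iff.2 h1, h2] with x hx1 hx2
  have h3 : U ≤ U.comap (ρ x : E →ₗ[ℝ] E) := by
    apply hmin
    intro s
    filter_upwards [hx1 s] with y hy
    rw [Submodule.mem_comap]
    have : (ρ x : E →ₗ[ℝ] E) (ρ y v - v) = (ρ (x * y) v - v) - (ρ x v - v) := by
      rw [map_mul]
      simp
    rw [this]
    exact U.sub_mem hy hx2
  intro u hu
  exact h3 hu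

omit hρ [BorelSpace E] [MeasurableSpace E] [MeasurableMul₂ Γ] [MeasurableSpace Γ] in
theorem key_bound (U : Submodule ℝ E) {n : ℕ} (b : Module.Basis (Fin n) ℝ U) (u1 : E)
    (hu1 : u1 ∈ U) (hne : u1 ≠ 0) : ∃ δ : ℝ, 0 < δ ∧ ∀ x : Γ, (∀ u ∈ U, ρ x⁻¹ u ∈ U) →
      ENNReal.ofReal δ ≤ min 1 ‖ρ x⁻¹ u1‖ₑ + ∑ i, min 1 ‖ρ x (b i : E)‖ₑ := by
  obtain ⟨C, hC0, hC⟩ : ∃ C : ℝ, 0 ≤ C ∧ ∀ u : U, ‖b.equivFun u‖ ≤ C * ‖u‖ := by
    let T : U →L[ℝ] (Fin n → ℝ) := (b.equivFunL : U →L[ℝ] (Fin n → ℝ))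
    exact ⟨‖T‖, norm_nonneg T, fun u => T.le_opNorm u⟩
  have hu1pos : 0 < ‖u1‖ := norm_pos_iff.2 hne
  set δ : ℝ := min 1 (‖u1‖ / (C + 1)) with hδ
  have hδpos : 0 < δ := lt_min one_pos (by positivity)
  have hδ1 : δ ≤ 1 := min_le_left _ _
  refine ⟨δ, hδpos, fun x hx => ?_⟩
  by_contra hlt
  push Not at hlt
  have hbound : ∀ u ∈ U, ‖ρ x u‖ ≤ C * ‖u‖ * ∑ i, ‖ρ x (b i : E)‖ := by
    intro u hu
    have h1 : u = ∑ i, (b.equivFun ⟨u, hu⟩ i) • (b i : E) := by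
      have := b.sum_equivFun ⟨u, hu⟩
      have h2 := congrArg (fun z : U => (z : E)) this
      simp only [Submodule.coe_sum, Submodule.coe_smul] at h2
      exact h2.symm
    have h3 : ρ x u = ∑ i, (b.equivFun ⟨u, hu⟩ i) • ρ x (b i : E) := by
      conv_lhs => rw [h1]
      rw [map_sum]
      simp
    rw [h3, Finset.mul_sum]
    refine (norm_sum_le _ _).trans (Finset.sum_le_sum fun i _ => ?_)
    rw [norm_smul]
    gcongr
    calc ‖b.equivFun ⟨u, hu⟩ i‖ ≤ ‖b.equivFun ⟨u, hu⟩‖ := norm_le_pi_norm _ i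
      _ ≤ C * ‖(⟨u, hu⟩ : U)‖ := hC _
      _ = C * ‖u‖ := rfl
  have hδE : ENNReal.ofReal δ ≤ 1 := by
    rw [ENNReal.ofReal_le_one]
    exact hδ1
  have ha : min 1 ‖ρ x⁻¹ u1‖ₑ < ENNReal.ofReal δ := lt_of_le_of_lt le_self_add hlt
  have hb : ∑ i, min 1 ‖ρ x (b i : E)‖ₑ < ENNReal.ofReal δ := lt_of_le_of_lt le_add_self hlt
  have ha2 : ‖ρ x⁻¹ u1‖ < δ := by
    have : ‖ρ x⁻¹ u1‖ₑ < ENNReal.ofReal δ := by
      rcases min_lt_iff.1 ha with h | h
      · exact absurd h (not_lt.2 hδE)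
      · exact h
    rw [← ofReal_norm_eq_enorm] at this
    exact (ENNReal.ofReal_lt_ofReal_iff hδpos).1 this
  have hb1 : ∀ i, min 1 ‖ρ x (b i : E)‖ₑ = ‖ρ x (b i : E)‖ₑ := by
    intro i
    apply min_eq_right
    by_contra hcon
    push Not at hcon
    have h1 : min 1 ‖ρ x (b i : E)‖ₑ = 1 := min_eq_left hcon.le
    have h2 : min 1 ‖ρ x (b i : E)‖ₑ ≤ ∑ i, min 1 ‖ρ x (b i : E)‖ₑ :=
      Finset.single_le_sum (f := fun i => min 1 ‖ρ x (b i : E)‖ₑ) (fun _ _ => zero_le)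
        (Finset.mem_univ i)
    rw [h1] at h2
    exact absurd (lt_of_le_of_lt h2 hb) (not_lt.2 hδE)
  have hb2 : ∑ i, ‖ρ x (b i : E)‖ < δ := by
    simp_rw [hb1] at hb
    have : ∑ i, ‖ρ x (b i : E)‖ₑ = ENNReal.ofReal (∑ i, ‖ρ x (b i : E)‖) := by
      rw [ENNReal.ofReal_sum_of_nonneg fun _ _ => norm_nonneg _]
      simp
    rw [this] at hb
    exact (ENNReal.ofReal_lt_ofReal_iff hδpos).1 hb
  have h4 := hbound _ (hx u1 hu1)
  have h5 : ρ x (ρ x⁻¹ u1) = u1 := by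
    have : (ρ x * ρ x⁻¹) u1 = u1 := by
      rw [← map_mul, mul_inv_cancel, map_one]
      rfl
    exact this
  rw [h5] at h4
  have hS : 0 ≤ ∑ i, ‖ρ x (b i : E)‖ := Finset.sum_nonneg fun _ _ => norm_nonneg _
  have h6 : C * ‖ρ x⁻¹ u1‖ * ∑ i, ‖ρ x (b i : E)‖ ≤ C * δ * 1 := by
    gcongr
    exact (hb2.le.trans hδ1)
  have h7 : C * δ < ‖u1‖ := by
    have h8 : δ ≤ ‖u1‖ / (C + 1) := min_le_right _ _
    have h9 : (C + 1) * δ ≤ ‖u1‖ := by
      rw [le_div_iff₀ (by positivity)] at h8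
      linarith
    nlinarith
  linarith

/-- **Main linear lemma.** If `ρ(X_t) v` converges almost surely and the step law is symmetric then
almost every step fixes `v`. -/
theorem main_linear [MeasurableInv Γ] (hinv : ν.map (fun x => x⁻¹) = ν)
    (g : ℕ → Ω → Γ) (hg : ∀ i, Measurable (g i)) (hind : iIndepFun g P)
    (hlaw : ∀ i, P.map (g i) = ν) (v : E)
    (hconv : ∀ᵐ ω ∂P, ∃ L, Tendsto (fun t => ρ (seg g 0 t ω) v) atTop (𝓝 L)) :
    ∀ᵐ x ∂ν, ρ x v = v := by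
  obtain ⟨t, ht⟩ := lemB ρ hρ ν v (lemA ρ hρ ν P g hg hind hlaw v hconv)
  obtain ⟨U, hU, hmin⟩ := exists_minimal ρ ν v
  have hUW : U ≤ contr ρ hρ ν t := hmin _ ht
  have hinvU := invariant_ae ρ ν v U hU hmin
  have hinvU' : ∀ᵐ x ∂ν, ∀ u ∈ U, ρ x⁻¹ u ∈ U := by
    rw [← hinv] at hinvU
    exact ae_of_ae_map measurable_inv.aemeasurable hinvU
  have hbot : U = ⊥ := by
    by_contra hne
    obtain ⟨u1, hu1, hu1ne⟩ := Submodule.exists_mem_ne_zero_of_ne_bot hne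
    set b := Module.finBasis ℝ U with hb
    obtain ⟨δ, hδ, hkey⟩ := key_bound ρ U b u1 hu1 hu1ne
    have hgU : ∀ᵐ ω ∂P, ∀ i, ∀ u ∈ U, ρ (g i ω)⁻¹ u ∈ U := by
      rw [ae_all_iff]
      intro i
      have h := hinvU'
      rw [← hlaw i] at h
      exact ae_of_ae_map (hg i).aemeasurable h
    have hXU : ∀ᵐ ω ∂P, ∀ k, ∀ u ∈ U, ρ (seg g 0 k ω)⁻¹ u ∈ U := by
      filter_upwards [hgU] with ω hω k
      induction k with
      | zero => simp [seg]
      | succ k ih =>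
        intro u hu
        simp only [seg, zero_add, mul_inv_rev, map_mul]
        exact hω k _ (ih u hu)
    have hlow : ∀ k, ENNReal.ofReal δ ≤ pp ρ ν k u1 + ∑ i, pp ρ ν k (b i : E) := by
      intro k
      have hX := seg_law g hg hind ν hlaw 0 k
      have e1 : pp ρ ν k u1 = ∫⁻ ω, min 1 ‖ρ (seg g 0 k ω)⁻¹ u1‖ₑ ∂P := by
        unfold pp
        conv_lhs => rw [← npow_inv ν hinv k, ← hX]
        have hm3 : Measurable fun a : Γ => min 1 ‖ρ a⁻¹ u1‖ₑ :=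
          (measurable_const.min (meas_one ρ hρ u1).enorm).comp measurable_inv
        rw [lintegral_map (measurable_const.min (meas_one ρ hρ u1).enorm) measurable_inv,
          lintegral_map hm3 (seg_measurable g hg 0 k)]
      have e2 : ∀ i, pp ρ ν k (b i : E) = ∫⁻ ω, min 1 ‖ρ (seg g 0 k ω) (b i : E)‖ₑ ∂P := by
        intro i
        unfold pp
        rw [← hX, lintegral_map (measurable_const.min (meas_one ρ hρ _).enorm)
          (seg_measurable g hg 0 k)]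
      rw [e1]
      simp_rw [e2]
      have hm2 : ∀ i, Measurable fun ω => min 1 ‖ρ (seg g 0 k ω) (b i : E)‖ₑ := fun i =>
        measurable_const.min ((meas_one ρ hρ _).comp (seg_measurable g hg 0 k)).enorm
      rw [← lintegral_finsetSum _ fun i _ => hm2 i,
        ← lintegral_add_right _ (Finset.measurable_sum _ fun i _ => hm2 i)]
      calc ENNReal.ofReal δ = ∫⁻ _ω, ENNReal.ofReal δ ∂P := by simp
        _ ≤ _ := by
          refine lintegral_mono_ae ?_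
          filter_upwards [hXU] with ω hω
          exact hkey _ (hω k)
    have hlim : Tendsto (fun k => pp ρ ν (t k) u1 + ∑ i, pp ρ ν (t k) (b i : E)) atTop
        (𝓝 (0 + ∑ _i : Fin (Module.finrank ℝ U), 0)) := by
      apply Tendsto.add (hUW hu1)
      exact tendsto_finsetSum _ fun i _ => hUW (b i).2
    simp only [Finset.sum_const_zero, add_zero] at hlim
    have hge := ge_of_tendsto' hlim (fun k => hlow (t k))
    have : (0 : ℝ≥0∞) < ENNReal.ofReal δ := ENNReal.ofReal_pos.2 hδ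
    exact absurd hge (not_le.2 this)
  have h1 := hU 1
  rw [npow_one, hbot] at h1
  filter_upwards [h1] with x hx
  rw [Submodule.mem_bot, sub_eq_zero] at hx
  exact hx

end main

end Pool.Agent.X141.FD
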