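import Mathlib

set_option autoImplicit false

namespace Pool.Agent.X141.FD

open MeasureTheory ProbabilityTheory Filter Topology
open scoped ENNReal

section powers

variable {Γ : Type*} [Group Γ] [MeasurableSpace Γ] [MeasurableMul₂ Γ]

/-- Convolution powers of a measure. -/
noncomputable def npow (ν : Measure Γ) : ℕ → Measure Γ
  | 0 => Measure.dirac 1
  | (n + 1) => Measure.mconv (npow ν n) ν

instance npow_prob (ν : Measure Γ) [IsProbabilityMeasure ν] (n : ℕ) :
    IsProbabilityMeasure (npow ν n) := by
  induction n with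
  | zero => unfold npow; infer_instance
  | succ n ih => unfold npow; infer_instance

theorem npow_succ' (ν : Measure Γ) [IsProbabilityMeasure ν] (n : ℕ) :
    npow ν (n + 1) = Measure.mconv ν (npow ν n) := by
  induction n with
  | zero => simp [npow, Measure.dirac_one_mconv, Measure.mconv_dirac_one]
  | succ n ih =>
    calc npow ν (n + 1 + 1) = Measure.mconv (npow ν (n + 1)) ν := rfl
      _ = Measure.mconv (Measure.mconv ν (npow ν n)) ν := by rw [ih]
      _ = Measure.mconv ν (Measure.mconv (npow ν n) ν) := Measure.mconv_assoc _ _ _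
      _ = Measure.mconv ν (npow ν (n + 1)) := rfl

theorem npow_one (ν : Measure Γ) [IsProbabilityMeasure ν] : npow ν 1 = ν := by
  simp [npow, Measure.dirac_one_mconv]

theorem mconv_inv [MeasurableInv Γ] (α β : Measure Γ) [IsProbabilityMeasure α]
    [IsProbabilityMeasure β] :
    (Measure.mconv α β).map (fun x => x⁻¹) =
      Measure.mconv (β.map (fun x => x⁻¹)) (α.map (fun x => x⁻¹)) := by
  unfold Measure.mconv
  have hm : Measurable (fun x : Γ × Γ => x.1 * x.2) := measurable_mul
  have hi : Measurable (fun x : Γ => x⁻¹) := measurable_inv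
  rw [Measure.map_map hi hm, Measure.map_prod_map _ _ hi hi, Measure.map_map hm (hi.prodMap hi),
    ← Measure.prod_swap, Measure.map_map (hi.comp hm) measurable_swap]
  congr 1
  ext p
  simp [Function.comp]

theorem npow_inv [MeasurableInv Γ] (ν : Measure Γ) [IsProbabilityMeasure ν]
    (hν : ν.map (fun x => x⁻¹) = ν) (n : ℕ) :
    (npow ν n).map (fun x => x⁻¹) = npow ν n := by
  induction n with
  | zero => simp [npow, Measure.map_dirac' measurable_inv]
  | succ n ih => rw [npow, mconv_inv, ih, hν, ← npow_succ', npow]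

end powers

section walk

variable {Γ : Type*} [Group Γ] [MeasurableSpace Γ] [MeasurableMul₂ Γ]
variable {Ω : Type*}

/-- The product of `s` consecutive increments after time `t`. -/
def seg (g : ℕ → Ω → Γ) (t : ℕ) : ℕ → Ω → Γ
  | 0 => fun _ => 1
  | (s + 1) => fun ω => seg g t s ω * g (t + s) ω

theorem seg_add (g : ℕ → Ω → Γ) (t s : ℕ) (ω : Ω) :
    seg g 0 (t + s) ω = seg g 0 t ω * seg g t s ω := by
  induction s with
  | zero => simp [seg]
  | succ s ih =>
    rw [← add_assoc]
    simp only [seg]
    rw [ih, zero_add, mul_assoc]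

theorem seg_meas' (g : ℕ → Ω → Γ) (t s : ℕ) {mΩ : MeasurableSpace Ω}
    (h : ∀ i, t ≤ i → i < t + s → Measurable (g i)) : Measurable (seg g t s) := by
  induction s with
  | zero => exact measurable_const
  | succ s ih =>
    exact (ih fun i hi hi2 => h i hi (by omega)).mul (h (t + s) (by omega) (by omega))

theorem seg_meas (g : ℕ → Ω → Γ) (t s : ℕ) (S : Set ℕ)
    (h : ∀ i, t ≤ i → i < t + s → i ∈ S) :
    Measurable[⨆ i ∈ S, MeasurableSpace.comap (g i) inferInstance] (seg g t s) := by
  apply seg_meas' (mΩ := ⨆ i ∈ S, MeasurableSpace.comap (g i) inferInstance)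
  intro i hi hi2
  have h3 : MeasurableSpace.comap (g i) inferInstance ≤
      ⨆ i ∈ S, MeasurableSpace.comap (g i) inferInstance :=
    le_iSup₂_of_le i (h i hi hi2) le_rfl
  exact Measurable.mono (comap_measurable (g i)) h3 le_rfl

variable [MeasurableSpace Ω]

theorem seg_measurable (g : ℕ → Ω → Γ) (hg : ∀ i, Measurable (g i)) (t s : ℕ) :
    Measurable (seg g t s) := by
  induction s with
  | zero => exact measurable_const
  | succ s ih => exact ih.mul (hg _)

variable {P : Measure Ω} [IsProbabilityMeasure P]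

theorem indep_seg (g : ℕ → Ω → Γ) (hg : ∀ i, Measurable (g i)) (hind : iIndepFun g P)
    (t₁ s₁ t₂ s₂ : ℕ) (h : t₁ + s₁ ≤ t₂) : IndepFun (seg g t₁ s₁) (seg g t₂ s₂) P := by
  rw [IndepFun_iff_Indep]
  have h1 := indep_iSup_of_disjoint (fun i => (hg i).comap_le)
    ((iIndepFun_iff_iIndep _ _ _).1 hind) (S := {i | i < t₂}) (T := {i | t₂ ≤ i}) (by
      rw [Set.disjoint_left]
      intro i hi hi2
      simp at hi hi2
      omega)
  refine indep_of_indep_of_le_left (indep_of_indep_of_le_right h1 ?_) ?_
  · exact (seg_meas g t₂ s₂ {i | t₂ ≤ i} (fun i hi _ => hi)).comap_le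
  · exact (seg_meas g t₁ s₁ {i | i < t₂} (fun i _ hi => by simp; omega)).comap_le

theorem seg_law (g : ℕ → Ω → Γ) (hg : ∀ i, Measurable (g i)) (hind : iIndepFun g P)
    (ν : Measure Γ) (hlaw : ∀ i, P.map (g i) = ν) (t s : ℕ) :
    P.map (seg g t s) = npow ν s := by
  induction s with
  | zero =>
    simp only [seg, npow]
    rw [Measure.map_const]
    simp
  | succ s ih =>
    have h1 : IndepFun (seg g t s) (seg g (t + s) 1) P := indep_seg g hg hind t s (t + s) 1 le_rfl
    have h2 : seg g (t + s) 1 = g (t + s) := by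
      ext ω
      simp [seg]
    rw [h2] at h1
    have h3 := h1.map_mul_eq_map_mconv_map (seg_measurable g hg t s) (hg (t + s))
    rw [ih, hlaw] at h3
    exact h3

theorem seg_joint (g : ℕ → Ω → Γ) (hg : ∀ i, Measurable (g i)) (hind : iIndepFun g P)
    (ν : Measure Γ) (hlaw : ∀ i, P.map (g i) = ν) (t s : ℕ) :
    P.map (fun ω => (seg g 0 t ω, seg g t s ω)) = (npow ν t).prod (npow ν s) := by
  have h1 : IndepFun (seg g 0 t) (seg g t s) P := indep_seg g hg hind 0 t t s (by omega)
  rw [indepFun_iff_map_prod_eq_prod_map_map (seg_measurable g hg 0 t).aemeasurable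
    (seg_measurable g hg t s).aemeasurable] at h1
  rw [h1, seg_law g hg hind ν hlaw, seg_law g hg hind ν hlaw]

end walk

end Pool.Agent.X141.FD
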