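import Mathlib

/-!
# MP_c254db_co: the flow resistance can exceed the resistance

A cubic graph with 30 vertices, made of three pieces of the Petersen graph in a chain (the
Petersen graph minus a vertex, minus two vertices, minus a vertex) separated by pairs of vertices.
Every 4-flow has a zero edge in the closed neighbourhood of each piece (otherwise contracting the
rest would give a nowhere-zero 4-flow of the Petersen graph), and these three edge sets are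
disjoint; so the flow resistance is at least 3.  But there is a proper 4-edge-colouring with a
colour class of two edges, one in each end piece: a defect pattern passes through the middle piece.
-/

set_option autoImplicit false

namespace Pool.Agent.Results.MP_c254db_co.FlowResistanceExceeds

section Defs

variable {V : Type*} [Fintype V]

/-- `c` restricted to the edges of `G` is a proper edge colouring with four colours. -/
def IsProper4 (G : SimpleGraph V) (c : Sym2 V → Fin 4) : Prop :=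
  ∀ v u w, G.Adj v u → G.Adj v w → u ≠ w → c s(v, u) ≠ c s(v, w)

/-- Resistance `r(G)`: the smallest size of a colour class over all proper 4-edge-colourings. -/
noncomputable def resistance (G : SimpleGraph V) : ℕ :=
  sInf {k | ∃ c : Sym2 V → Fin 4, IsProper4 G c ∧
    ∃ i : Fin 4, {e | e ∈ G.edgeSet ∧ c e = i}.ncard = k}

/-- A 4-flow, as an antisymmetric function: `φ u v` is the value of the edge `uv` read in the
direction from `u` to `v`. -/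
structure IsFourFlow (G : SimpleGraph V) (φ : V → V → ℤ) : Prop where
  anti : ∀ u v, φ u v = - φ v u
  supp : ∀ u v, ¬ G.Adj u v → φ u v = 0
  bound : ∀ u v, |φ u v| ≤ 3
  cons : ∀ v, ∑ u, φ v u = 0

/-- Flow resistance `r_f(G)`: the least number of edges of value `0` in a 4-flow. -/
noncomputable def flowResistance (G : SimpleGraph V) : ℕ :=
  sInf {k | ∃ φ : V → V → ℤ, IsFourFlow G φ ∧
    {e | e ∈ G.edgeSet ∧ ∃ u v, e = s(u, v) ∧ φ u v = 0}.ncard = k}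

/-- No edge is a bridge: its ends stay connected when it is deleted. -/
def Bridgeless (G : SimpleGraph V) : Prop :=
  ∀ u v, G.Adj u v → (G.deleteEdges {s(u, v)}).Reachable u v

end Defs

/-- neighbours -/
def T : List (List ℕ) := [[1, 5, 9], [0, 2, 6], [1, 3, 7], [2, 8, 9], [6, 7, 10], [0, 7, 8], [1, 4, 8], [2, 4, 5], [3, 5, 6], [0, 3, 11], [4, 14, 15], [9, 12, 19], [11, 13, 16], [12, 14, 17], [10, 13, 18], [10, 16, 17], [12, 15, 18], [13, 15, 19], [14, 16, 20], [11, 17, 21], [18, 24, 25], [19, 22, 26], [21, 23, 27], [22, 24, 28], [20, 23, 29], [20, 27, 28], [21, 28, 29], [22, 25, 29], [23, 25, 26], [24, 26, 27]]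
/-- colours -/
def CT : List (List ℕ) := [[3, 1, 0], [3, 0, 2], [0, 1, 2], [1, 0, 2], [0, 1, 2], [1, 0, 2], [2, 0, 1], [2, 1, 0], [0, 2, 1], [0, 2, 1], [2, 0, 1], [1, 2, 0], [2, 0, 1], [0, 1, 2], [0, 1, 2], [1, 2, 0], [1, 2, 0], [2, 0, 1], [2, 0, 1], [0, 1, 2], [1, 2, 0], [2, 0, 1], [0, 3, 2], [3, 0, 1], [2, 0, 1], [0, 1, 2], [1, 0, 2], [2, 1, 0], [1, 2, 0], [1, 2, 0]]
/-- detours -/
def PT : List (List (List ℕ)) := [[[5, 7, 2, 1], [1, 2, 7, 5], [1, 2, 3, 9]], [[2, 3, 9, 0], [0, 5, 7, 2], [0, 5, 8, 6]], [[3, 8, 6, 1], [1, 0, 9, 3], [1, 0, 5, 7]], [[8, 5, 7, 2], [2, 1, 6, 8], [2, 1, 0, 9]], [[7, 2, 1, 6], [6, 1, 2, 7], [6, 1, 0, 9, 11, 12, 13, 14, 10]], [[7, 2, 1, 0], [0, 1, 2, 7], [0, 1, 6, 8]], [[4, 7, 2, 1], [1, 2, 7, 4], [1, 0, 5, 8]], [[4, 6, 1, 2], [2, 1, 6, 4], [2, 1, 0, 5]], [[5, 0, 9, 3], [3, 2, 7, 5], [3, 2, 1, 6]], [[3, 2, 1, 0], [0, 1, 2, 3], [0, 1, 6, 4, 10, 14, 13,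 12, 11]], [[14, 13, 12, 11, 9, 0, 1, 6, 4], [15, 16, 18, 14], [14, 13, 17, 15]], [[12, 13, 14, 10, 4, 6, 1, 0, 9], [19, 17, 13, 12], [12, 13, 17, 19]], [[13, 17, 19, 11], [11, 19, 17, 13], [13, 14, 18, 16]], [[14, 18, 16, 12], [12, 16, 18, 14], [12, 11, 19, 17]], [[13, 17, 15, 10], [10, 15, 17, 13], [10, 15, 16, 18]], [[16, 18, 14, 10], [10, 14, 18, 16], [10, 14, 13, 17]], [[15, 17, 13, 12], [12, 13, 17, 15], [12, 13, 14, 18]], [[15, 10, 14, 13], [13, 12, 16, 15], [13, 12, 11, 19]], [[16, 12, 13, 14], [14, 10, 15, 16], [14, 13, 17, 19, 21, 22, 23, 24, 20]], [[17, 13, 12, 11], [11, 12, 13, 17], [11, 12, 16, 18, 20, 24, 23, 22, 21]], [[24, 23, 22, 21, 19, 11, 12, 16, 18], [25, 27, 29, 24], [24, 23, 28, 25]], [[22, 23, 24, 20, 18, 14, 13, 17, 19], [26, 28, 23, 22], [22, 23, 28, 26]], [[23, 28, 26, 21], [21, 26, 28, 23], [21, 26, 29, 27]], [[24, 29, 27, 22], [22, 27, 29, 24], [22,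 21, 26, 28]], [[23, 28, 25, 20], [20, 25, 28, 23], [20, 25, 27, 29]], [[27, 29, 24, 20], [20, 24, 29, 27], [20, 24, 23, 28]], [[28, 23, 22, 21], [21, 22, 23, 28], [21, 22, 27, 29]], [[25, 28, 23, 22], [22, 23, 28, 25], [22, 21, 26, 29]], [[25, 20, 24, 23], [23, 22, 27, 25], [23, 22, 21, 26]], [[26, 28, 23, 24], [24, 23, 28, 26], [24, 20, 25, 27]]]
/-- paths from 0 -/
def RT : List (List ℕ) := [[], [1], [1, 2], [9, 3], [1, 6, 4], [5], [1, 6], [5, 7], [5, 8], [9], [1, 6, 4, 10], [9, 11], [9, 11, 12], [9, 11, 12, 13], [1, 6, 4, 10, 14], [1, 6, 4, 10, 15], [9, 11, 12, 16], [9, 11, 19, 17], [9, 11, 12, 16, 18], [9, 11, 19], [9, 11, 12, 16, 18, 20], [9, 11, 19, 21], [9, 11, 19, 21, 22], [9, 11, 19, 21, 22, 23], [9, 11, 12, 16, 18, 20, 24], [9, 11, 12, 16, 18, 20, 25], [9, 11, 19, 21, 26], [9, 11, 19, 21, 22, 27], [9, 11, 19, 21, 26, 28], [9, 11, 19, 21, 26, 29]]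

def nb (v : Fin 30) (k : Fin 3) : Fin 30 := Fin.ofNat 30 ((T.getD v.val []).getD k.val 0)

lemma nb_symm : ∀ v k, ∃ l, nb (nb v k) l = v := by decide +kernel

lemma nb_ne : ∀ v k, nb v k ≠ v := by decide +kernel

lemma nb_inj : ∀ v k l, nb v k = nb v l → k = l := by decide +kernel

/-- the graph -/
def G : SimpleGraph (Fin 30) where
  Adj u v := ∃ k, nb u k = v
  symm := by
    constructor
    rintro u v ⟨k, rfl⟩
    exact nb_symm u k
  loopless := by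
    constructor
    rintro u ⟨k, hk⟩
    exact nb_ne u k hk

lemma cubic : ∀ v, (G.neighborSet v).ncard = 3 := by
  intro v
  have h : G.neighborSet v = Set.range (nb v) := by
    ext u
    simp [SimpleGraph.mem_neighborSet, G]
  rw [h, ← Set.image_univ, Set.ncard_image_of_injective _ (fun a b hab => nb_inj v a b hab),
    Set.ncard_univ]
  simp

/-! ### connectivity -/

def okP (a b : Fin 30) : Fin 30 → List ℕ → Fin 30 → Bool
  | x, [], y => decide (x = y)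
  | x, z :: l, y => decide (∃ k, nb x k = Fin.ofNat 30 z) && !(decide (s(x, Fin.ofNat 30 z) = s(a, b)))
      && okP a b (Fin.ofNat 30 z) l y

lemma okP_reach (a b : Fin 30) (l : List ℕ) : ∀ x y, okP a b x l y = true →
    (G.deleteEdges {s(a, b)}).Reachable x y := by
  induction l with
  | nil =>
    intro x y h
    simp only [okP, decide_eq_true_eq] at h
    rw [h]
  | cons z l ih =>
    intro x y h
    simp only [okP, Bool.and_eq_true, decide_eq_true_eq, Bool.not_eq_true',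
      decide_eq_false_iff_not] at h
    obtain ⟨⟨h1, h2⟩, h3⟩ := h
    refine SimpleGraph.Reachable.trans (SimpleGraph.Adj.reachable ?_) (ih _ _ h3)
    rw [SimpleGraph.deleteEdges_adj]
    exact ⟨h1, by simpa using h2⟩

lemma bridgeless : Bridgeless G := by
  rintro u v ⟨k, rfl⟩
  have h : ∀ (u : Fin 30) (k : Fin 3), okP u (nb u k) u ((PT.getD u.val []).getD k.val []) (nb u k)
      = true := by decide +kernel
  exact okP_reach _ _ _ _ _ (h u k)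

lemma connected : G.Connected := by
  have h : ∀ v : Fin 30, okP 0 0 0 (RT.getD v.val []) v = true := by decide +kernel
  have h2 : ∀ v : Fin 30, G.Reachable 0 v := fun v =>
    (okP_reach _ _ _ _ _ (h v)).mono (SimpleGraph.deleteEdges_le _)
  have : Nonempty (Fin 30) := ⟨0⟩
  exact ⟨fun u v => (h2 u).symm.trans (h2 v)⟩

/-! ### the colouring -/

def f (u v : Fin 30) : Fin 4 :=
  if nb u 0 = v then Fin.ofNat 4 ((CT.getD u.val []).getD 0 0)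
  else if nb u 1 = v then Fin.ofNat 4 ((CT.getD u.val []).getD 1 0)
  else if nb u 2 = v then Fin.ofNat 4 ((CT.getD u.val []).getD 2 0)
  else 0

lemma f_symm : ∀ u v, f u v = f v u := by decide +kernel

def c : Sym2 (Fin 30) → Fin 4 := Sym2.lift ⟨f, f_symm⟩

lemma c_proper : IsProper4 G c := by
  rintro v u w ⟨k, rfl⟩ ⟨l, rfl⟩ h
  have key : ∀ v k l, nb v k ≠ nb v l → f v (nb v k) ≠ f v (nb v l) := by decide +kernel
  exact key v k l h

lemma c_three : {e | e ∈ G.edgeSet ∧ c e = 3} ⊆ {s(0, 1), s(22, 23)} := by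
  rintro e ⟨h1, h2⟩
  induction e using Sym2.ind with
  | _ u v =>
    rw [SimpleGraph.mem_edgeSet] at h1
    obtain ⟨k, rfl⟩ := h1
    have key : ∀ v k, f v (nb v k) = 3 → s(v, nb v k) = s(0, 1) ∨ s(v, nb v k) = s(22, 23) := by
      decide +kernel
    exact key u k h2

lemma resistance_le : resistance G ≤ 2 := by
  have h1 : {e | e ∈ G.edgeSet ∧ c e = 3}.ncard ≤ 2 :=
    (Set.ncard_le_ncard c_three (Set.toFinite _)).trans
      ((Set.ncard_insert_le _ _).trans (by rw [Set.ncard_singleton]))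
  have h2 : resistance G ≤ {e | e ∈ G.edgeSet ∧ c e = 3}.ncard :=
    Nat.sInf_le ⟨c, c_proper, 3, rfl⟩
  exact h2.trans h1

/-! ### 4-flows of the Petersen graph -/

lemma p10 : ∀ a0 a1 a2 a3 a4 b0 : ZMod 4, a0 ≠ 0 → a1 ≠ 0 → a2 ≠ 0 → a3 ≠ 0 → a4 ≠ 0 → b0 ≠ 0 →
    a4 - a0 ≠ 0 → a0 - a1 ≠ 0 → a1 - a2 ≠ 0 → a2 - a3 ≠ 0 → a3 - a4 ≠ 0 →
    b0 + (a1 - a2) ≠ 0 → b0 + (a1 - a2) + (a3 - a4) ≠ 0 →
    b0 + (a1 - a2) + (a3 - a4) + (a0 - a1) ≠ 0 →
    b0 + (a1 - a2) + (a3 - a4) + (a0 - a1) + (a2 - a3) ≠ 0 → False := by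
  decide +kernel

lemma nz {x : ℤ} (h : |x| ≤ 3) (h0 : x ≠ 0) : (x : ZMod 4) ≠ 0 := by
  intro hx
  have h4 : ((4 : ℕ) : ℤ) ∣ x := (ZMod.intCast_zmod_eq_zero_iff_dvd x 4).1 hx
  rw [abs_le] at h
  omega

/-- `g 0..4` outer edges, `g 5..9` spokes, `g 10..14` inner edges. -/
lemma petersen (g : Fin 15 → ℤ) (hb : ∀ i, |g i| ≤ 3)
    (e0 : g 5 = g 4 - g 0) (e1 : g 6 = g 0 - g 1) (e2 : g 7 = g 1 - g 2) (e3 : g 8 = g 2 - g 3)
    (e4 : g 9 = g 3 - g 4) (i2 : g 12 = g 10 + g 7) (i4 : g 14 = g 12 + g 9)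
    (i1 : g 11 = g 14 + g 6) (i3 : g 13 = g 11 + g 8) : ∃ i, g i = 0 := by
  by_contra hcon
  push Not at hcon
  have z := fun i => nz (hb i) (hcon i)
  have z5 := z 5
  have z6 := z 6
  have z7 := z 7
  have z8 := z 8
  have z9 := z 9
  have z12 := z 12
  have z14 := z 14
  have z11 := z 11
  have z13 := z 13
  rw [i3, i1, i4, i2, e4, e3, e2, e1] at z13
  rw [i1, i4, i2, e4, e2, e1] at z11
  rw [i4, i2, e4, e2] at z14
  rw [i2, e2] at z12
  rw [e0] at z5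
  rw [e1] at z6
  rw [e2] at z7
  rw [e3] at z8
  rw [e4] at z9
  push_cast at z5 z6 z7 z8 z9 z12 z14 z11 z13
  exact p10 _ _ _ _ _ _ (z 0) (z 1) (z 2) (z 3) (z 4) (z 10) z5 z6 z7 z8 z9 z12 z14 z11 z13

/-! ### the flow on the graph -/

lemma cons3 {φ : Fin 30 → Fin 30 → ℤ} (h : IsFourFlow G φ) (v : Fin 30) :
    φ v (nb v 0) + φ v (nb v 1) + φ v (nb v 2) = 0 := by
  have h1 := h.cons v
  have h2 : ∑ u, φ v u = ∑ u ∈ Finset.univ.image (nb v), φ v u := by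
    symm
    apply Finset.sum_subset (Finset.subset_univ _)
    intro u _ hu
    apply h.supp
    rintro ⟨k, rfl⟩
    exact hu (Finset.mem_image_of_mem _ (Finset.mem_univ _))
  rw [h2, Finset.sum_image (fun a _ b _ hab => nb_inj v a b hab), Fin.sum_univ_three] at h1
  exact h1

def P1 : Fin 15 → Fin 30 × Fin 30 := ![(9, 0), (0, 1), (1, 2), (2, 3), (3, 9), (10, 4), (0, 5), (1, 6), (2, 7), (3, 8), (4, 6), (5, 7), (6, 8), (7, 4), (8, 5)]

def PY : Fin 15 → Fin 30 × Fin 30 := ![(9, 11), (11, 12), (12, 13), (13, 14), (14, 10), (10, 15), (11, 19), (12, 16), (13, 17), (14, 18), (15, 16), (19, 17), (16, 18), (17, 15), (18, 20)]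

def P2 : Fin 15 → Fin 30 × Fin 30 := ![(19, 21), (21, 22), (22, 23), (23, 24), (24, 20), (20, 25), (21, 26), (22, 27), (23, 28), (24, 29), (25, 27), (26, 28), (27, 29), (28, 25), (29, 26)]

lemma cutL {φ : Fin 30 → Fin 30 → ℤ} (h : IsFourFlow G φ) : φ 9 11 + φ 10 14 + φ 10 15 = 0 := by
  have c0 : φ 0 1 + φ 0 5 + φ 0 9 = 0 := cons3 h 0
  have c1 : φ 1 0 + φ 1 2 + φ 1 6 = 0 := cons3 h 1
  have c2 : φ 2 1 + φ 2 3 + φ 2 7 = 0 := cons3 h 2
  have c3 : φ 3 2 + φ 3 8 + φ 3 9 = 0 := cons3 h 3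
  have c4 : φ 4 6 + φ 4 7 + φ 4 10 = 0 := cons3 h 4
  have c5 : φ 5 0 + φ 5 7 + φ 5 8 = 0 := cons3 h 5
  have c6 : φ 6 1 + φ 6 4 + φ 6 8 = 0 := cons3 h 6
  have c7 : φ 7 2 + φ 7 4 + φ 7 5 = 0 := cons3 h 7
  have c8 : φ 8 3 + φ 8 5 + φ 8 6 = 0 := cons3 h 8
  have c9 : φ 9 0 + φ 9 3 + φ 9 11 = 0 := cons3 h 9
  have c10 : φ 10 4 + φ 10 14 + φ 10 15 = 0 := cons3 h 10
  have n0 : φ 1 0 = - φ 0 1 := h.anti _ _
  have n1 : φ 2 1 = - φ 1 2 := h.anti _ _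
  have n2 : φ 3 2 = - φ 2 3 := h.anti _ _
  have n3 : φ 6 4 = - φ 4 6 := h.anti _ _
  have n4 : φ 7 5 = - φ 5 7 := h.anti _ _
  have n5 : φ 8 6 = - φ 6 8 := h.anti _ _
  have n6 : φ 4 7 = - φ 7 4 := h.anti _ _
  have n7 : φ 5 8 = - φ 8 5 := h.anti _ _
  have n8 : φ 5 0 = - φ 0 5 := h.anti _ _
  have n9 : φ 6 1 = - φ 1 6 := h.anti _ _
  have n10 : φ 7 2 = - φ 2 7 := h.anti _ _
  have n11 : φ 8 3 = - φ 3 8 := h.anti _ _
  have n12 : φ 9 0 = - φ 0 9 := h.anti _ _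
  have n13 : φ 9 3 = - φ 3 9 := h.anti _ _
  have n14 : φ 10 4 = - φ 4 10 := h.anti _ _
  have n15 : φ 11 9 = - φ 9 11 := h.anti _ _
  have n16 : φ 14 10 = - φ 10 14 := h.anti _ _
  have n17 : φ 15 10 = - φ 10 15 := h.anti _ _
  omega

lemma zero1 {φ : Fin 30 → Fin 30 → ℤ} (h : IsFourFlow G φ) : ∃ i, φ (P1 i).1 (P1 i).2 = 0 := by
  have c0 : φ 0 1 + φ 0 5 + φ 0 9 = 0 := cons3 h 0
  have c1 : φ 1 0 + φ 1 2 + φ 1 6 = 0 := cons3 h 1
  have c2 : φ 2 1 + φ 2 3 + φ 2 7 = 0 := cons3 h 2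
  have c3 : φ 3 2 + φ 3 8 + φ 3 9 = 0 := cons3 h 3
  have c4 : φ 4 6 + φ 4 7 + φ 4 10 = 0 := cons3 h 4
  have c5 : φ 5 0 + φ 5 7 + φ 5 8 = 0 := cons3 h 5
  have c6 : φ 6 1 + φ 6 4 + φ 6 8 = 0 := cons3 h 6
  have c7 : φ 7 2 + φ 7 4 + φ 7 5 = 0 := cons3 h 7
  have c8 : φ 8 3 + φ 8 5 + φ 8 6 = 0 := cons3 h 8
  have n0 : φ 1 0 = - φ 0 1 := h.anti _ _
  have n1 : φ 2 1 = - φ 1 2 := h.anti _ _
  have n2 : φ 3 2 = - φ 2 3 := h.anti _ _
  have n3 : φ 6 4 = - φ 4 6 := h.anti _ _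
  have n4 : φ 7 5 = - φ 5 7 := h.anti _ _
  have n5 : φ 8 6 = - φ 6 8 := h.anti _ _
  have n6 : φ 4 7 = - φ 7 4 := h.anti _ _
  have n7 : φ 5 8 = - φ 8 5 := h.anti _ _
  have n8 : φ 5 0 = - φ 0 5 := h.anti _ _
  have n9 : φ 6 1 = - φ 1 6 := h.anti _ _
  have n10 : φ 7 2 = - φ 2 7 := h.anti _ _
  have n11 : φ 8 3 = - φ 3 8 := h.anti _ _
  have n12 : φ 9 0 = - φ 0 9 := h.anti _ _
  have n13 : φ 9 3 = - φ 3 9 := h.anti _ _
  have n14 : φ 10 4 = - φ 4 10 := h.anti _ _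
  have hg : ∀ i, |φ (P1 i).1 (P1 i).2| ≤ 3 := fun i => h.bound _ _
  refine petersen (fun i => φ (P1 i).1 (P1 i).2) hg ?_ ?_ ?_ ?_ ?_ ?_ ?_ ?_ ?_
  · show φ 10 4 = φ 3 9 - φ 9 0
    omega
  · show φ 0 5 = φ 9 0 - φ 0 1
    omega
  · show φ 1 6 = φ 0 1 - φ 1 2
    omega
  · show φ 2 7 = φ 1 2 - φ 2 3
    omega
  · show φ 3 8 = φ 2 3 - φ 3 9
    omega
  · show φ 6 8 = φ 4 6 + φ 1 6
    omega
  · show φ 8 5 = φ 6 8 + φ 3 8
    omega
  · show φ 5 7 = φ 8 5 + φ 0 5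
    omega
  · show φ 7 4 = φ 5 7 + φ 2 7
    omega

lemma zeroY {φ : Fin 30 → Fin 30 → ℤ} (h : IsFourFlow G φ) : ∃ i, φ (PY i).1 (PY i).2 = 0 := by
  have c11 : φ 11 9 + φ 11 12 + φ 11 19 = 0 := cons3 h 11
  have c12 : φ 12 11 + φ 12 13 + φ 12 16 = 0 := cons3 h 12
  have c13 : φ 13 12 + φ 13 14 + φ 13 17 = 0 := cons3 h 13
  have c14 : φ 14 10 + φ 14 13 + φ 14 18 = 0 := cons3 h 14
  have c15 : φ 15 10 + φ 15 16 + φ 15 17 = 0 := cons3 h 15
  have c16 : φ 16 12 + φ 16 15 + φ 16 18 = 0 := cons3 h 16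
  have c17 : φ 17 13 + φ 17 15 + φ 17 19 = 0 := cons3 h 17
  have c18 : φ 18 14 + φ 18 16 + φ 18 20 = 0 := cons3 h 18
  have n0 : φ 12 11 = - φ 11 12 := h.anti _ _
  have n1 : φ 13 12 = - φ 12 13 := h.anti _ _
  have n2 : φ 14 13 = - φ 13 14 := h.anti _ _
  have n3 : φ 16 15 = - φ 15 16 := h.anti _ _
  have n4 : φ 18 16 = - φ 16 18 := h.anti _ _
  have n5 : φ 15 17 = - φ 17 15 := h.anti _ _
  have n6 : φ 16 12 = - φ 12 16 := h.anti _ _
  have n7 : φ 17 13 = - φ 13 17 := h.anti _ _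
  have n8 : φ 18 14 = - φ 14 18 := h.anti _ _
  have n9 : φ 11 9 = - φ 9 11 := h.anti _ _
  have n10 : φ 14 10 = - φ 10 14 := h.anti _ _
  have n11 : φ 15 10 = - φ 10 15 := h.anti _ _
  have n12 : φ 19 17 = - φ 17 19 := h.anti _ _
  have n13 : φ 19 11 = - φ 11 19 := h.anti _ _
  have n14 : φ 20 18 = - φ 18 20 := h.anti _ _
  have cl := cutL h
  have hg : ∀ i, |φ (PY i).1 (PY i).2| ≤ 3 := fun i => h.bound _ _
  refine petersen (fun i => φ (PY i).1 (PY i).2) hg ?_ ?_ ?_ ?_ ?_ ?_ ?_ ?_ ?_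
  · show φ 10 15 = φ 14 10 - φ 9 11
    omega
  · show φ 11 19 = φ 9 11 - φ 11 12
    omega
  · show φ 12 16 = φ 11 12 - φ 12 13
    omega
  · show φ 13 17 = φ 12 13 - φ 13 14
    omega
  · show φ 14 18 = φ 13 14 - φ 14 10
    omega
  · show φ 16 18 = φ 15 16 + φ 12 16
    omega
  · show φ 18 20 = φ 16 18 + φ 14 18
    omega
  · show φ 19 17 = φ 18 20 + φ 11 19
    omega
  · show φ 17 15 = φ 19 17 + φ 13 17
    omega

lemma zero2 {φ : Fin 30 → Fin 30 → ℤ} (h : IsFourFlow G φ) : ∃ i, φ (P2 i).1 (P2 i).2 = 0 := by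
  have c21 : φ 21 19 + φ 21 22 + φ 21 26 = 0 := cons3 h 21
  have c22 : φ 22 21 + φ 22 23 + φ 22 27 = 0 := cons3 h 22
  have c23 : φ 23 22 + φ 23 24 + φ 23 28 = 0 := cons3 h 23
  have c24 : φ 24 20 + φ 24 23 + φ 24 29 = 0 := cons3 h 24
  have c25 : φ 25 20 + φ 25 27 + φ 25 28 = 0 := cons3 h 25
  have c26 : φ 26 21 + φ 26 28 + φ 26 29 = 0 := cons3 h 26
  have c27 : φ 27 22 + φ 27 25 + φ 27 29 = 0 := cons3 h 27
  have c28 : φ 28 23 + φ 28 25 + φ 28 26 = 0 := cons3 h 28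
  have c29 : φ 29 24 + φ 29 26 + φ 29 27 = 0 := cons3 h 29
  have n0 : φ 22 21 = - φ 21 22 := h.anti _ _
  have n1 : φ 23 22 = - φ 22 23 := h.anti _ _
  have n2 : φ 24 23 = - φ 23 24 := h.anti _ _
  have n3 : φ 27 25 = - φ 25 27 := h.anti _ _
  have n4 : φ 28 26 = - φ 26 28 := h.anti _ _
  have n5 : φ 29 27 = - φ 27 29 := h.anti _ _
  have n6 : φ 25 28 = - φ 28 25 := h.anti _ _
  have n7 : φ 26 29 = - φ 29 26 := h.anti _ _
  have n8 : φ 26 21 = - φ 21 26 := h.anti _ _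
  have n9 : φ 27 22 = - φ 22 27 := h.anti _ _
  have n10 : φ 28 23 = - φ 23 28 := h.anti _ _
  have n11 : φ 29 24 = - φ 24 29 := h.anti _ _
  have n12 : φ 21 19 = - φ 19 21 := h.anti _ _
  have n13 : φ 24 20 = - φ 20 24 := h.anti _ _
  have n14 : φ 25 20 = - φ 20 25 := h.anti _ _
  have hg : ∀ i, |φ (P2 i).1 (P2 i).2| ≤ 3 := fun i => h.bound _ _
  refine petersen (fun i => φ (P2 i).1 (P2 i).2) hg ?_ ?_ ?_ ?_ ?_ ?_ ?_ ?_ ?_
  · show φ 20 25 = φ 24 20 - φ 19 21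
    omega
  · show φ 21 26 = φ 19 21 - φ 21 22
    omega
  · show φ 22 27 = φ 21 22 - φ 22 23
    omega
  · show φ 23 28 = φ 22 23 - φ 23 24
    omega
  · show φ 24 29 = φ 23 24 - φ 24 20
    omega
  · show φ 27 29 = φ 25 27 + φ 22 27
    omega
  · show φ 29 26 = φ 27 29 + φ 24 29
    omega
  · show φ 26 28 = φ 29 26 + φ 21 26
    omega
  · show φ 28 25 = φ 26 28 + φ 23 28
    omega

lemma P1_adj : ∀ i, ∃ k, nb (P1 i).1 k = (P1 i).2 := by decide +kernel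
lemma PY_adj : ∀ i, ∃ k, nb (PY i).1 k = (PY i).2 := by decide +kernel
lemma P2_adj : ∀ i, ∃ k, nb (P2 i).1 k = (P2 i).2 := by decide +kernel
lemma d1Y : ∀ i j, s((P1 i).1, (P1 i).2) ≠ s((PY j).1, (PY j).2) := by decide +kernel
lemma d12 : ∀ i j, s((P1 i).1, (P1 i).2) ≠ s((P2 j).1, (P2 j).2) := by decide +kernel
lemma dY2 : ∀ i j, s((PY i).1, (PY i).2) ≠ s((P2 j).1, (P2 j).2) := by decide +kernel

lemma three_le {φ : Fin 30 → Fin 30 → ℤ} (h : IsFourFlow G φ) :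
    3 ≤ {e | e ∈ G.edgeSet ∧ ∃ u v, e = s(u, v) ∧ φ u v = 0}.ncard := by
  obtain ⟨i, hi⟩ := zero1 h
  obtain ⟨j, hj⟩ := zeroY h
  obtain ⟨k, hk⟩ := zero2 h
  have hs : ({s((P1 i).1, (P1 i).2), s((PY j).1, (PY j).2), s((P2 k).1, (P2 k).2)} : Set (Sym2 (Fin 30)))
      ⊆ {e | e ∈ G.edgeSet ∧ ∃ u v, e = s(u, v) ∧ φ u v = 0} := by
    rintro e (rfl | rfl | rfl)
    · exact ⟨P1_adj i, _, _, rfl, hi⟩
    · exact ⟨PY_adj j, _, _, rfl, hj⟩
    · exact ⟨P2_adj k, _, _, rfl, hk⟩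
  have hc : ({s((P1 i).1, (P1 i).2), s((PY j).1, (PY j).2), s((P2 k).1, (P2 k).2)} : Set (Sym2 (Fin 30))).ncard
      = 3 := by
    rw [Set.ncard_eq_three]
    exact ⟨_, _, _, d1Y i j, d12 i k, dY2 j k, rfl⟩
  rw [← hc]
  exact Set.ncard_le_ncard hs (Set.toFinite _)

lemma flowResistance_ge : 3 ≤ flowResistance G := by
  apply le_csInf
  · refine ⟨_, fun _ _ => 0, ⟨?_, ?_, ?_, ?_⟩, rfl⟩ <;> simp
  · rintro k ⟨φ, hφ, rfl⟩
    exact three_le hφ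

/-- **MP_c254db_co is disproved.**  There is a connected bridgeless cubic (simple) graph whose flow
resistance is larger than its resistance: `r(G) ≤ 2 < 3 ≤ r_f(G)`. -/
theorem result : ∃ G : SimpleGraph (Fin 30), (∀ v, (G.neighborSet v).ncard = 3) ∧ G.Connected ∧
    Bridgeless G ∧ resistance G ≤ 2 ∧ 3 ≤ flowResistance G :=
  ⟨G, cubic, connected, bridgeless, resistance_le, flowResistance_ge⟩

end Pool.Agent.Results.MP_c254db_co.FlowResistanceExceeds
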