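import Mathlib

/-!
Lamplighter type groups `K ≀≀ ℤ` (unrestricted), positive elements and a word which is trivial on
positive elements but not a law.
-/

set_option autoImplicit false

namespace Pool.Agent.X141.Lamp

/-- The unrestricted wreath product of `K` by `ℤ`. -/
@[ext] structure W (K : Type*) where
  /-- the lamps -/
  lamp : ℤ → K
  /-- the position -/
  pos : ℤ

variable {K : Type*} [Group K]

instance : Group (W K) where
  mul x y := ⟨fun i => x.lamp i * y.lamp (i - x.pos), x.pos + y.pos⟩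
  one := ⟨fun _ => 1, 0⟩
  inv x := ⟨fun i => (x.lamp (i + x.pos))⁻¹, -x.pos⟩
  mul_assoc x y z := by
    apply W.ext
    · funext i
      show (x.lamp i * y.lamp (i - x.pos)) * z.lamp (i - (x.pos + y.pos)) =
        x.lamp i * (y.lamp (i - x.pos) * z.lamp (i - x.pos - y.pos))
      rw [mul_assoc, sub_sub]
    · exact add_assoc _ _ _
  one_mul x := by
    apply W.ext
    · funext i
      show 1 * x.lamp (i - 0) = x.lamp i
      rw [one_mul, sub_zero]
    · exact zero_add _
  mul_one x := by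
    apply W.ext
    · funext i
      exact mul_one _
    · exact add_zero _
  inv_mul_cancel x := by
    apply W.ext
    · funext i
      show (x.lamp (i + x.pos))⁻¹ * x.lamp (i - -x.pos) = 1
      rw [sub_neg_eq_add, inv_mul_cancel]
    · exact neg_add_cancel _

theorem mul_lamp (x y : W K) (i : ℤ) : (x * y).lamp i = x.lamp i * y.lamp (i - x.pos) := rfl
theorem mul_pos' (x y : W K) : (x * y).pos = x.pos + y.pos := rfl
theorem one_lamp (i : ℤ) : (1 : W K).lamp i = 1 := rfl
theorem one_pos' : (1 : W K).pos = 0 := rfl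
theorem inv_lamp (x : W K) (i : ℤ) : (x⁻¹).lamp i = (x.lamp (i + x.pos))⁻¹ := rfl
theorem inv_pos' (x : W K) : (x⁻¹).pos = -x.pos := rfl

/-- Positive elements: nonnegative position and lamps changed only in `[0, pos)`. -/
def IsPos (x : W K) : Prop := 0 ≤ x.pos ∧ ∀ i, (i < 0 ∨ x.pos ≤ i) → x.lamp i = 1

theorem isPos_one : IsPos (1 : W K) := ⟨le_rfl, fun _ _ => rfl⟩

theorem IsPos.mul {x y : W K} (hx : IsPos x) (hy : IsPos y) : IsPos (x * y) := by
  refine ⟨add_nonneg hx.1 hy.1, fun i hi => ?_⟩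
  rw [mul_pos'] at hi
  rw [mul_lamp, hx.2 i, hy.2 (i - x.pos), mul_one]
  · rcases hi with h | h
    · left
      have := hx.1
      omega
    · right
      omega
  · rcases hi with h | h
    · exact Or.inl h
    · right
      have := hy.1
      omega

/-- Two elements with the same position. -/
theorem comm_lamp (x y : W K) (i : ℤ) :
    (x * y * x⁻¹ * y⁻¹).lamp i = (x * y).lamp i * ((y * x).lamp i)⁻¹ := by
  have h : x * y * x⁻¹ * y⁻¹ = (x * y) * (y * x)⁻¹ := by group
  rw [h, mul_lamp, inv_lamp]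
  congr 3
  rw [mul_pos', mul_pos']
  ring

theorem comm_pos (x y : W K) : (x * y * x⁻¹ * y⁻¹).pos = 0 := by
  simp only [mul_pos', inv_pos']
  ring

theorem comm_lamp_neg {x y : W K} (hx : IsPos x) (hy : IsPos y) (i : ℤ) (hi : i < 0) :
    (x * y * x⁻¹ * y⁻¹).lamp i = 1 := by
  rw [comm_lamp, (hx.mul hy).2 i (Or.inl hi), (hy.mul hx).2 i (Or.inl hi)]
  simp

theorem comm_inv_lamp {x y : W K} (hx : IsPos x) (hy : IsPos y) (i : ℤ) (hi : 0 ≤ i) :
    (x⁻¹ * y⁻¹ * x⁻¹⁻¹ * y⁻¹⁻¹).lamp i = 1 := by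
  have h : x⁻¹ * y⁻¹ * x⁻¹⁻¹ * y⁻¹⁻¹ = (y * x)⁻¹ * (x * y) := by group
  rw [h, mul_lamp, inv_lamp, (hy.mul hx).2, (hx.mul hy).2]
  · simp
  · right
    rw [inv_pos', mul_pos', mul_pos']
    omega
  · right
    omega

theorem commute_of_disjoint (u v : W K) (hu : u.pos = 0) (hv : v.pos = 0)
    (h : ∀ i, u.lamp i * v.lamp i = v.lamp i * u.lamp i) : u * v = v * u := by
  apply W.ext
  · funext i
    rw [mul_lamp, mul_lamp, hu, hv, sub_zero]
    exact h i
  · rw [mul_pos', mul_pos', hu, hv]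

/-- `[x, y]` and `[z⁻¹, t⁻¹]` commute for positive elements. -/
theorem word_trivial {x y z t : W K} (hx : IsPos x) (hy : IsPos y) (hz : IsPos z) (ht : IsPos t) :
    (x * y * x⁻¹ * y⁻¹) * (z⁻¹ * t⁻¹ * z⁻¹⁻¹ * t⁻¹⁻¹) =
      (z⁻¹ * t⁻¹ * z⁻¹⁻¹ * t⁻¹⁻¹) * (x * y * x⁻¹ * y⁻¹) := by
  apply commute_of_disjoint
  · exact comm_pos _ _
  · exact comm_pos _ _
  · intro i
    rcases lt_or_ge i 0 with hi | hi
    · rw [comm_lamp_neg hx hy i hi, one_mul, mul_one]
    · rw [comm_inv_lamp hz ht i hi, one_mul, mul_one]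

/-- The commutator `[a, b] = a b a⁻¹ b⁻¹`. -/
def br {H : Type*} [Group H] (a b : H) : H := a * b * a⁻¹ * b⁻¹

theorem br_eq_one {H : Type*} [Group H] (a b : H) : br a b = 1 ↔ a * b = b * a := by
  unfold br
  rw [mul_inv_eq_one, mul_inv_eq_iff_eq_mul]

/-- The word `[[x, y], [z⁻¹, t⁻¹]]`. -/
def word : FreeGroup (Fin 4) :=
  br (br (FreeGroup.of 0) (FreeGroup.of 1)) (br (FreeGroup.of 2)⁻¹ (FreeGroup.of 3)⁻¹)

theorem lift_word {H : Type*} [Group H] (g : Fin 4 → H) :
    FreeGroup.lift g word = br (br (g 0) (g 1)) (br (g 2)⁻¹ (g 3)⁻¹) := by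
  simp [word, br]

theorem lift_word_eq_one_of_isPos (g : Fin 4 → W K) (hg : ∀ i, IsPos (g i)) :
    FreeGroup.lift g word = 1 := by
  rw [lift_word, br_eq_one]
  exact word_trivial (hg 0) (hg 1) (hg 2) (hg 3)

/-- The lamp `k` at the origin. -/
def lampAt (k : K) : W K := ⟨fun i => if i = 0 then k else 1, 0⟩

/-- Move right by one. -/
def shift : W K := ⟨fun _ => 1, 1⟩

/-- Toggle by `k`, then move right. -/
def step (k : K) : W K := ⟨fun i => if i = 0 then k else 1, 1⟩

theorem step_isPos (k : K) : IsPos (step k) := by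
  refine ⟨zero_le_one, fun i hi => ?_⟩
  have : ¬ i = 0 := by
    rcases hi with h | h
    · omega
    · have h2 : (1 : ℤ) ≤ i := h
      omega
  simp [step, this]

theorem step_one : step (1 : K) = shift := by
  apply W.ext
  · funext i
    simp [step, shift]
  · rfl

theorem lampAt_eq (k : K) : lampAt k = step k * (step (1 : K))⁻¹ := by
  apply W.ext
  · funext i
    rw [mul_lamp, inv_lamp, step_one]
    simp [lampAt, step, shift]
  · rw [mul_pos', inv_pos']
    simp [lampAt, step]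

/-- The word is not trivial at lamps and shifts. -/
theorem word_nontrivial (a b : K) (hab : a * b ≠ b * a) :
    FreeGroup.lift ![lampAt a, shift, lampAt b, shift⁻¹] word ≠ (1 : W K) := by
  intro h
  rw [lift_word, br_eq_one] at h
  have h2 := congrArg (fun z : W K => z.lamp 0) h
  simp only [br, mul_lamp, inv_lamp, mul_pos', inv_pos', lampAt, shift,
    Matrix.cons_val_zero, Matrix.cons_val_one, Matrix.cons_val] at h2
  simp at h2
  apply hab
  have h3 : a * b⁻¹ = b⁻¹ * a := h2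
  calc a * b = b * (b⁻¹ * a) * b := by group
    _ = b * (a * b⁻¹) * b := by rw [h3]
    _ = b * a := by group

end Pool.Agent.X141.Lamp
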