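import Pool.Agent.X141.LampWalk

/-!
Two walks: the probability that `[x, y]` and `[z, t]` commute is small when `y, t` have moved far.
-/

set_option autoImplicit false

namespace Pool.Agent.X141.LampWalk

open Pool.Agent.X141.Lamp Pool.Agent.X141.Recur

variable {K : Type*} [Group K] [Fintype K] [DecidableEq K]

/-- the lamp at `j` of `[x, y]` -/
def ux (y : W K) (j : ℤ) (x : W K) : K :=
  x.lamp j * y.lamp (j - x.pos) * (x.lamp (j - y.pos))⁻¹ * (y.lamp j)⁻¹

omit [Fintype K] [DecidableEq K] in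
theorem ux_eq (x y : W K) (j : ℤ) : (x * y * x⁻¹ * y⁻¹).lamp j = ux y j x := by
  rw [comm_lamp, mul_lamp, mul_lamp]
  unfold ux
  group

omit [Fintype K] [DecidableEq K] in
theorem ux_upd_ne (x y : W K) (i j : ℤ) (κ : K) (h1 : i ≠ j) (h2 : i - y.pos ≠ j) :
    ux y i (upd x j κ) = ux y i x := by
  unfold ux upd
  simp only
  rw [Function.update_of_ne h1, Function.update_of_ne h2]

omit [Fintype K] [DecidableEq K] in
theorem ux_upd_same (x y : W K) (j : ℤ) (κ : K) (h : y.pos ≠ 0) :
    ux y j (upd x j κ) =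
      x.lamp j * (κ * (y.lamp (j - x.pos) * (x.lamp (j - y.pos))⁻¹ * (y.lamp j)⁻¹)) := by
  unfold ux upd
  simp only
  rw [Function.update_self, Function.update_of_ne (by omega)]
  group

/-- commutation indicator -/
def ci (u v : K) : ℝ := if u * v = v * u then 1 else 0

omit [Fintype K] in
theorem ci_nonneg (u v : K) : 0 ≤ ci u v := by unfold ci; split_ifs <;> norm_num
omit [Fintype K] in
theorem ci_le (u v : K) : ci u v ≤ 1 := by unfold ci; split_ifs <;> norm_num

/-- proportion of elements commuting with `u` -/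
noncomputable def gam (u : K) : ℝ := (∑ v, ci u v) / Fintype.card K

theorem gam_nonneg (u : K) : 0 ≤ gam u :=
  div_nonneg (Finset.sum_nonneg fun _ _ => ci_nonneg _ _) (Nat.cast_nonneg _)

theorem gam_le (u : K) : gam u ≤ 1 := by
  unfold gam
  have hc : (0 : ℝ) < Fintype.card K := by exact_mod_cast Fintype.card_pos
  rw [div_le_one hc]
  calc ∑ v, ci u v ≤ ∑ _v : K, (1 : ℝ) := Finset.sum_le_sum fun v _ => ci_le _ _
    _ = Fintype.card K := by simp

theorem avg_ci (u a c : K) : (∑ κ : K, ci u (a * (κ * c))) / (Fintype.card K : ℝ) = gam u := by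
  unfold gam
  congr 1
  exact Equiv.sum_comp ((Equiv.mulRight c).trans (Equiv.mulLeft a)) (fun v => ci u v)

theorem avg_gam (a c : K) (hK : (∑ u : K, ∑ v : K, ci u v) = (Fintype.card K : ℝ) ^ 2 / 2) :
    (∑ κ : K, gam (a * (κ * c))) / (Fintype.card K : ℝ) = 1 / 2 := by
  have h1 : ∑ κ : K, gam (a * (κ * c)) = ∑ u : K, gam u :=
    Equiv.sum_comp ((Equiv.mulRight c).trans (Equiv.mulLeft a)) (fun v => gam v)
  rw [h1]
  unfold gam
  rw [← Finset.sum_div, hK]
  have hc : (Fintype.card K : ℝ) ≠ 0 := by exact_mod_cast Fintype.card_ne_zero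
  field_simp

/-- indicator that the lamps at `0, …, L-1` of the two commutators commute -/
noncomputable def Phi (y t : W K) (L : ℕ) (x z : W K) : ℝ :=
  ∏ j ∈ Finset.range L, ci (ux y j x) (ux t j z)

omit [Fintype K] in
theorem Phi_nonneg (y t : W K) (L : ℕ) (x z : W K) : 0 ≤ Phi y t L x z :=
  Finset.prod_nonneg fun _ _ => ci_nonneg _ _

omit [Fintype K] in
theorem Phi_le (y t : W K) (L : ℕ) (x z : W K) : Phi y t L x z ≤ 1 :=
  Finset.prod_le_one (fun _ _ => ci_nonneg _ _) fun _ _ => ci_le _ _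

omit [Fintype K] in
theorem Phi_upd_left (y t : W K) (L : ℕ) (x z : W K) (κ : K) (hy : (L : ℤ) < |y.pos|) :
    Phi y t L (upd x L κ) z = Phi y t L x z := by
  unfold Phi
  refine Finset.prod_congr rfl fun j hj => ?_
  rw [Finset.mem_range] at hj
  rw [ux_upd_ne]
  · omega
  · intro h
    have : y.pos = (j : ℤ) - L := by omega
    rw [this] at hy
    rw [abs_of_neg (by omega)] at hy
    omega

omit [Fintype K] in
theorem Phi_upd_right (y t : W K) (L : ℕ) (x z : W K) (κ : K) (ht : (L : ℤ) < |t.pos|) :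
    Phi y t L x (upd z L κ) = Phi y t L x z := by
  unfold Phi
  refine Finset.prod_congr rfl fun j hj => ?_
  rw [Finset.mem_range] at hj
  congr 1
  rw [ux_upd_ne]
  · omega
  · intro h
    have : t.pos = (j : ℤ) - L := by omega
    rw [this] at ht
    rw [abs_of_neg (by omega)] at ht
    omega

/-- expectation over two independent walks -/
noncomputable def E2 (n : ℕ) (Φ : W K → W K → ℝ) : ℝ := B n (fun x => B n (fun z => Φ x z) 1) 1

theorem E2_step (hK : (∑ u : K, ∑ v : K, ci u v) = (Fintype.card K : ℝ) ^ 2 / 2)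
    (y t : W K) (L : ℕ) (hy : (L : ℤ) < |y.pos|) (ht : (L : ℤ) < |t.pos|) (n : ℕ) :
    E2 n (Phi y t (L + 1)) ≤ 1 / 2 * E2 n (Phi y t L) + 2 * qn n L := by
  have hy0 : y.pos ≠ 0 := by
    intro h
    rw [h] at hy
    simp at hy
    omega
  have ht0 : t.pos ≠ 0 := by
    intro h
    rw [h] at ht
    simp at ht
    omega
  have hsucc : ∀ x z, Phi y t (L + 1) x z = Phi y t L x z * ci (ux y L x) (ux t L z) := by
    intro x z
    unfold Phi
    rw [Finset.prod_range_succ]
  -- inner expectation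
  have hin : ∀ x, B n (fun z => Phi y t (L + 1) x z) 1 ≤
      gam (ux y L x) * B n (fun z => Phi y t L x z) 1 + qn n L := by
    intro x
    have h1 := B_le_U (L : ℤ) (fun z => Phi y t (L + 1) x z) (fun z => Phi_nonneg _ _ _ _ _)
      (fun z => Phi_le _ _ _ _ _) n 1
    have h2 : U (L : ℤ) (fun z => Phi y t (L + 1) x z) =
        fun z => gam (ux y L x) * Phi y t L x z := by
      ext z
      unfold U
      simp_rw [hsucc, Phi_upd_right y t L x z _ ht, ux_upd_same z t L _ ht0]
      rw [← Finset.mul_sum, mul_div_assoc, avg_ci, mul_comm]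
    rw [h2] at h1
    have h3 := congrFun (B_smul n (gam (ux y L x)) (fun z => Phi y t L x z)) 1
    rw [h3, one_pos', sub_zero] at h1
    exact h1
  have hPt0 : ∀ x, 0 ≤ B n (fun z => Phi y t L x z) 1 := by
    intro x
    have := B_mono n (F := fun _ => 0) (G := fun z => Phi y t L x z)
      (fun z => Phi_nonneg _ _ _ _ _) 1
    rwa [B_const] at this
  have hPt1 : ∀ x, B n (fun z => Phi y t L x z) 1 ≤ 1 := by
    intro x
    have := B_mono n (F := fun z => Phi y t L x z) (G := fun _ => 1)
      (fun z => Phi_le _ _ _ _ _) 1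
    rwa [B_const] at this
  unfold E2
  have h4 := B_mono n hin (1 : W K)
  have h5 := congrFun (B_add n (fun x => gam (ux y L x) * B n (fun z => Phi y t L x z) 1)
    (fun _ => qn n L)) 1
  rw [h5, B_const] at h4
  have h6 := B_le_U (L : ℤ) (fun x => gam (ux y L x) * B n (fun z => Phi y t L x z) 1)
    (fun x => mul_nonneg (gam_nonneg _) (hPt0 x))
    (fun x => by
      have := gam_le (ux y L x)
      have := gam_nonneg (ux y L x)
      nlinarith [hPt0 x, hPt1 x]) n 1
  have h7 : U (L : ℤ) (fun x => gam (ux y L x) * B n (fun z => Phi y t L x z) 1) =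
      fun x => 1 / 2 * B n (fun z => Phi y t L x z) 1 := by
    ext x
    unfold U
    have e1 : ∀ κ, B n (fun z => Phi y t L (upd x (L : ℤ) κ) z) 1 =
        B n (fun z => Phi y t L x z) 1 := by
      intro κ
      congr 1
      ext z
      exact Phi_upd_left y t L x z κ hy
    simp_rw [e1, ux_upd_same x y L _ hy0]
    rw [← Finset.sum_mul, mul_div_right_comm, avg_gam _ _ hK]
  rw [h7] at h6
  have h8 := congrFun (B_smul n (1 / 2) (fun x => B n (fun z => Phi y t L x z) 1)) 1
  rw [h8, one_pos', sub_zero] at h6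
  linarith

theorem E2_le (hK : (∑ u : K, ∑ v : K, ci u v) = (Fintype.card K : ℝ) ^ 2 / 2)
    (y t : W K) (R : ℕ) (hy : (R : ℤ) < |y.pos|) (ht : (R : ℤ) < |t.pos|) (n : ℕ) :
    E2 n (Phi y t R) ≤ (1 / 2) ^ R + 2 * ∑ j ∈ Finset.range R, qn n j := by
  have h : ∀ L ≤ R, E2 n (Phi y t L) ≤ (1 / 2) ^ L + 2 * ∑ j ∈ Finset.range L, qn n j := by
    intro L
    induction L with
    | zero =>
      intro _
      unfold E2 Phi
      simp [B_const]
    | succ L ih =>
      intro hL
      have h1 := ih (by omega)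
      have h2 := E2_step hK y t L (by omega) (by omega) n
      have h3 : 0 ≤ ∑ j ∈ Finset.range L, qn n j := Finset.sum_nonneg fun j _ => qn_nonneg n j
      rw [Finset.sum_range_succ, pow_succ]
      linarith
  exact h R le_rfl

end Pool.Agent.X141.LampWalk
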