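import Mathlib

/-!
Local probabilities and hitting probabilities of the lazy simple random walk on `ℤ` with step law
`(1/4, 1/2, 1/4)`.
-/

set_option autoImplicit false

namespace Pool.Agent.X141.Recur

/-- binomial numerator of the local probability -/
def cc (n : ℕ) (x : ℤ) : ℕ := if 0 ≤ (n : ℤ) + x then Nat.choose (2 * n) ((n : ℤ) + x).toNat else 0

theorem cc_succ (n : ℕ) (x : ℤ) : cc (n + 1) x = cc n (x - 1) + 2 * cc n x + cc n (x + 1) := by
  unfold cc
  rcases lt_trichotomy ((n : ℤ) + x) 0 with h | h | h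
  · rcases lt_or_ge ((n : ℤ) + x) (-1) with h2 | h2
    · rw [if_neg (by push_cast; omega), if_neg (by omega), if_neg (by omega), if_neg (by omega)]
    · have h3 : (n : ℤ) + x = -1 := by omega
      rw [if_pos (by push_cast; omega), if_neg (by omega), if_neg (by omega), if_pos (by omega)]
      have e1 : (((n + 1 : ℕ) : ℤ) + x).toNat = 0 := by push_cast; omega
      have e2 : ((n : ℤ) + (x + 1)).toNat = 0 := by omega
      rw [e1, e2]
      simp
  · rw [if_pos (by push_cast; omega), if_neg (by omega), if_pos (by omega), if_pos (by omega)]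
    have e1 : (((n + 1 : ℕ) : ℤ) + x).toNat = 1 := by push_cast; omega
    have e2 : ((n : ℤ) + x).toNat = 0 := by omega
    have e3 : ((n : ℤ) + (x + 1)).toNat = 1 := by omega
    rw [e1, e2, e3]
    simp
    ring
  · obtain ⟨j, hj⟩ : ∃ j : ℕ, (n : ℤ) + x = j + 1 := ⟨((n : ℤ) + x - 1).toNat, by omega⟩
    rw [if_pos (by push_cast; omega), if_pos (by omega), if_pos (by omega), if_pos (by omega)]
    have e1 : (((n + 1 : ℕ) : ℤ) + x).toNat = j + 2 := by push_cast; omega
    have e2 : ((n : ℤ) + (x - 1)).toNat = j := by omega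
    have e3 : ((n : ℤ) + x).toNat = j + 1 := by omega
    have e4 : ((n : ℤ) + (x + 1)).toNat = j + 2 := by omega
    rw [e1, e2, e3, e4]
    have e5 : 2 * (n + 1) = 2 * n + 1 + 1 := by ring
    rw [e5, Nat.choose_succ_succ, Nat.choose_succ_succ, Nat.choose_succ_succ (2 * n) (j + 1)]
    ring

/-- `P(S_n = x)`. -/
noncomputable def pn (n : ℕ) (x : ℤ) : ℝ := (cc n x : ℝ) / 4 ^ n

theorem pn_zero (x : ℤ) : pn 0 x = if x = 0 then 1 else 0 := by
  unfold pn cc
  by_cases hx : x = 0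
  · subst hx
    simp
  · rw [if_neg hx]
    by_cases h : 0 ≤ ((0 : ℕ) : ℤ) + x
    · rw [if_pos h]
      have : (((0 : ℕ) : ℤ) + x).toNat ≠ 0 := by
        simp at h ⊢
        omega
      rw [mul_zero, Nat.choose_eq_zero_of_lt (Nat.pos_of_ne_zero this)]
      simp
    · rw [if_neg h]
      simp

theorem pn_succ (n : ℕ) (x : ℤ) :
    pn (n + 1) x = (pn n (x - 1) + 2 * pn n x + pn n (x + 1)) / 4 := by
  unfold pn
  rw [cc_succ]
  push_cast
  field_simp
  ring

theorem pn_nonneg (n : ℕ) (x : ℤ) : 0 ≤ pn n x := by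
  unfold pn
  positivity

theorem pn_neg (n : ℕ) (x : ℤ) : pn n (-x) = pn n x := by
  induction n generalizing x with
  | zero => simp [pn_zero]
  | succ n ih =>
    rw [pn_succ, pn_succ, ih x]
    have e1 : -x - 1 = -(x + 1) := by ring
    have e2 : -x + 1 = -(x - 1) := by ring
    rw [e1, e2, ih, ih]
    ring

theorem centralBinom_sq (n : ℕ) : (Nat.centralBinom n) ^ 2 * (2 * n + 1) ≤ 16 ^ n := by
  induction n with
  | zero => simp
  | succ n ih =>
    have h := Nat.succ_mul_centralBinom_succ n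
    have h2 : (n + 1) ^ 2 * ((Nat.centralBinom (n + 1)) ^ 2 * (2 * (n + 1) + 1)) ≤
        (n + 1) ^ 2 * 16 ^ (n + 1) := by
      calc (n + 1) ^ 2 * ((Nat.centralBinom (n + 1)) ^ 2 * (2 * (n + 1) + 1))
          = ((n + 1) * Nat.centralBinom (n + 1)) ^ 2 * (2 * n + 3) := by ring
        _ = (2 * (2 * n + 1) * Nat.centralBinom n) ^ 2 * (2 * n + 3) := by rw [h]
        _ = (Nat.centralBinom n ^ 2 * (2 * n + 1)) * (4 * ((2 * n + 1) * (2 * n + 3))) := by ring
        _ ≤ 16 ^ n * (4 * ((2 * n + 1) * (2 * n + 3))) := Nat.mul_le_mul_right _ ih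
        _ ≤ 16 ^ n * (4 * (4 * (n + 1) ^ 2)) := by
            apply Nat.mul_le_mul_left
            nlinarith
        _ = (n + 1) ^ 2 * 16 ^ (n + 1) := by ring
    exact Nat.le_of_mul_le_mul_left h2 (by positivity)

theorem pn_sq (n : ℕ) (x : ℤ) : (pn n x) ^ 2 * (2 * n + 1) ≤ 1 := by
  have h1 : cc n x ≤ Nat.centralBinom n := by
    unfold cc
    split_ifs
    · exact Nat.choose_le_centralBinom _ _
    · exact Nat.zero_le _
  have h2 : (cc n x) ^ 2 * (2 * n + 1) ≤ 16 ^ n :=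
    (Nat.mul_le_mul_right _ (Nat.pow_le_pow_left h1 2)).trans (centralBinom_sq n)
  have h3 : ((cc n x : ℝ)) ^ 2 * (2 * n + 1) ≤ 16 ^ n := by exact_mod_cast h2
  unfold pn
  rw [div_pow, div_mul_eq_mul_div, div_le_one (by positivity), ← pow_mul, mul_comm n 2, pow_mul]
  norm_num
  exact h3

theorem pn_small (ε : ℝ) (hε : 0 < ε) : ∃ N : ℕ, ∀ n ≥ N, ∀ x, pn n x ≤ ε := by
  obtain ⟨N, hN⟩ := exists_nat_gt (1 / ε ^ 2)
  refine ⟨N, fun n hn x => ?_⟩
  by_contra hcon
  push Not at hcon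
  have h1 := pn_sq n x
  have h2 : (N : ℝ) ≤ n := by exact_mod_cast hn
  have h3 : 1 / ε ^ 2 < 2 * n + 1 := by
    have : (0 : ℝ) ≤ n := Nat.cast_nonneg _
    linarith
  rw [div_lt_iff₀ (by positivity)] at h3
  have h4 : ε ^ 2 ≤ (pn n x) ^ 2 := pow_le_pow_left₀ hε.le hcon.le 2
  nlinarith [pn_nonneg n x]

/-- `P(h ∉ {S_0, …, S_n})`. -/
noncomputable def qn : ℕ → ℤ → ℝ
  | 0, h => if h = 0 then 0 else 1
  | (n + 1), h => if h = 0 then 0 else (qn n (h - 1) + 2 * qn n h + qn n (h + 1)) / 4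

theorem rn_succ (n h : ℕ) : ∑ i ∈ Finset.range (h + 1), (pn (n + 1) i + pn (n + 1) (i + 1)) =
    (∑ i ∈ Finset.range h, (pn n i + pn n (i + 1)) +
      2 * ∑ i ∈ Finset.range (h + 1), (pn n i + pn n (i + 1)) +
      ∑ i ∈ Finset.range (h + 2), (pn n i + pn n (i + 1))) / 4 := by
  induction h with
  | zero =>
    simp only [Finset.sum_range_succ, Finset.sum_range_zero, zero_add]
    rw [pn_succ, pn_succ]
    have e1 : ((0 : ℕ) : ℤ) - 1 = -1 := by norm_num
    have e2 : ((0 : ℕ) : ℤ) + 1 - 1 = ((0 : ℕ) : ℤ) := by norm_num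
    have e3 : ((0 : ℕ) : ℤ) + 1 + 1 = ((1 : ℕ) : ℤ) + 1 := by norm_num
    have e4 : ((0 : ℕ) : ℤ) + 1 = 1 := by norm_num
    have e5 : pn n (-1) = pn n 1 := pn_neg n 1
    rw [e1, e2, e3, e4, e5]
    push_cast
    ring
  | succ h ih =>
    rw [Finset.sum_range_succ, ih, Finset.sum_range_succ _ (h + 2), Finset.sum_range_succ _ (h + 1),
      Finset.sum_range_succ _ h]
    rw [pn_succ, pn_succ]
    push_cast
    have e1 : (h : ℤ) + 1 - 1 = h := by ring
    have e2 : (h : ℤ) + 1 + 1 - 1 = h + 1 := by ring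
    rw [e1, e2]
    have e3 : (h : ℤ) + 2 = h + 1 + 1 := by ring
    rw [e3]
    ring

theorem qn_eq (n h : ℕ) : qn n h = ∑ i ∈ Finset.range h, (pn n i + pn n (i + 1)) := by
  induction n generalizing h with
  | zero =>
    cases h with
    | zero => simp [qn]
    | succ h =>
      rw [qn, if_neg (by push_cast; omega), Finset.sum_range_succ']
      simp only [pn_zero]
      have h1 : ∀ i ∈ Finset.range h, ((if (((i + 1 : ℕ)) : ℤ) = 0 then (1 : ℝ) else 0) +
          if (((i + 1 : ℕ)) : ℤ) + 1 = 0 then (1 : ℝ) else 0) = 0 := by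
        intro i _
        rw [if_neg (by push_cast; omega), if_neg (by push_cast; omega)]
        ring
      rw [Finset.sum_eq_zero h1]
      simp
  | succ n ih =>
    cases h with
    | zero => simp [qn]
    | succ h =>
      rw [qn, if_neg (by push_cast; omega), rn_succ]
      have e1 : ((h + 1 : ℕ) : ℤ) - 1 = (h : ℕ) := by push_cast; ring
      have e2 : ((h + 1 : ℕ) : ℤ) + 1 = ((h + 2 : ℕ) : ℤ) := by push_cast; ring
      rw [e1, e2, ih, ih, ih]

theorem qn_small (h : ℕ) (ε : ℝ) (hε : 0 < ε) : ∃ N : ℕ, ∀ n ≥ N, qn n h ≤ ε := by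
  obtain ⟨N, hN⟩ := pn_small (ε / (2 * h + 1)) (by positivity)
  refine ⟨N, fun n hn => ?_⟩
  rw [qn_eq]
  calc ∑ i ∈ Finset.range h, (pn n i + pn n (i + 1))
      ≤ ∑ _i ∈ Finset.range h, (ε / (2 * h + 1) + ε / (2 * h + 1)) :=
        Finset.sum_le_sum fun i _ => add_le_add (hN n hn _) (hN n hn _)
    _ = (2 * h) * (ε / (2 * h + 1)) := by
        rw [Finset.sum_const, Finset.card_range, nsmul_eq_mul]
        ring
    _ ≤ (2 * h + 1) * (ε / (2 * h + 1)) := by
        have : 0 ≤ ε / (2 * (h : ℝ) + 1) := by positivity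
        nlinarith
    _ = ε := by field_simp

theorem qn_nonneg (n : ℕ) (h : ℤ) : 0 ≤ qn n h := by
  induction n generalizing h with
  | zero => unfold qn; split_ifs <;> norm_num
  | succ n ih =>
    unfold qn
    split_ifs
    · exact le_rfl
    · have := ih (h - 1)
      have := ih h
      have := ih (h + 1)
      linarith

end Pool.Agent.X141.Recur
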