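import Pool.Agent.X141.Lamp
import Pool.Agent.X141.Recur

/-!
The switch-walk-switch random walk on the lamplighter type group, via averaging operators.
-/

set_option autoImplicit false

namespace Pool.Agent.X141.LampWalk

open Pool.Agent.X141.Lamp Pool.Agent.X141.Recur

variable {K : Type*} [Group K] [Fintype K] [DecidableEq K]

/-- multiply the lamp at `j` by `κ` -/
def upd (x : W K) (j : ℤ) (κ : K) : W K := ⟨Function.update x.lamp j (x.lamp j * κ), x.pos⟩

omit [Fintype K] [DecidableEq K] in
theorem upd_upd_same (x : W K) (j : ℤ) (a b : K) : upd (upd x j a) j b = upd x j (a * b) := by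
  simp [upd, mul_assoc]

omit [Fintype K] [DecidableEq K] in
theorem upd_comm (x : W K) {i j : ℤ} (h : i ≠ j) (a b : K) :
    upd (upd x i a) j b = upd (upd x j b) i a := by
  simp only [upd]
  congr 1
  rw [Function.update_of_ne h.symm, Function.update_of_ne h, Function.update_comm h]

/-- average over the lamp at `j` -/
noncomputable def U (j : ℤ) (F : W K → ℝ) (x : W K) : ℝ := (∑ κ, F (upd x j κ)) / Fintype.card K

/-- average over the lamp at the current position -/
noncomputable def V (F : W K → ℝ) (x : W K) : ℝ := U x.pos F x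

/-- move -/
def mv (x : W K) (e : ℤ) : W K := ⟨x.lamp, x.pos + e⟩

/-- lazy move -/
noncomputable def M (F : W K → ℝ) (x : W K) : ℝ := (F (mv x (-1)) + 2 * F x + F (mv x 1)) / 4

omit [DecidableEq K] in
theorem card_ne : (Fintype.card K : ℝ) ≠ 0 := by
  exact_mod_cast Fintype.card_ne_zero

omit [DecidableEq K] in
theorem U_const_of (j : ℤ) (F : W K → ℝ) (x : W K) (c : ℝ) (h : ∀ κ, F (upd x j κ) = c) :
    U j F x = c := by
  unfold U
  simp only [h, Finset.sum_const, Finset.card_univ, nsmul_eq_mul]
  have : (Fintype.card K : ℝ) ≠ 0 := by exact_mod_cast Fintype.card_ne_zero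
  field_simp

omit [DecidableEq K] in
theorem U_U (j : ℤ) (F : W K → ℝ) : U j (U j F) = U j F := by
  ext x
  apply U_const_of
  intro κ
  unfold U
  congr 1
  simp_rw [upd_upd_same]
  exact Equiv.sum_comp (Equiv.mulLeft κ) (fun k => F (upd x j k))

omit [DecidableEq K] in
theorem U_comm (i j : ℤ) (F : W K → ℝ) : U i (U j F) = U j (U i F) := by
  by_cases h : i = j
  · rw [h]
  ext x
  unfold U
  simp_rw [← Finset.sum_div]
  congr 2
  rw [Finset.sum_comm]
  refine Finset.sum_congr rfl fun a _ => Finset.sum_congr rfl fun b _ => ?_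
  rw [upd_comm x h]

omit [DecidableEq K] in
theorem V_U (j : ℤ) (F : W K → ℝ) : V (U j F) = U j (V F) := by
  ext x
  show U x.pos (U j F) x = U j (V F) x
  rw [U_comm]
  rfl

omit [DecidableEq K] in
theorem V_V (F : W K → ℝ) : V (V F) = V F := by
  ext x
  show U x.pos (V F) x = U x.pos F x
  have : U x.pos (V F) x = U x.pos (U x.pos F) x := rfl
  rw [this, U_U]

omit [DecidableEq K] in
theorem M_U (j : ℤ) (F : W K → ℝ) : M (U j F) = U j (M F) := by
  ext x
  unfold M U
  have e1 : ∀ (e : ℤ) (κ : K), upd (mv x e) j κ = mv (upd x j κ) e := fun _ _ => rfl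
  simp_rw [e1]
  rw [← Finset.sum_div, Finset.sum_add_distrib, Finset.sum_add_distrib, ← Finset.mul_sum]
  ring

omit [DecidableEq K] in
theorem U_mono (j : ℤ) {F G : W K → ℝ} (h : ∀ x, F x ≤ G x) (x : W K) : U j F x ≤ U j G x := by
  unfold U
  apply div_le_div_of_nonneg_right _ (Nat.cast_nonneg _)
  exact Finset.sum_le_sum fun κ _ => h _

omit [DecidableEq K] in
theorem U_le (j : ℤ) (F : W K → ℝ) (x : W K) (c : ℝ) (h : ∀ κ, F (upd x j κ) ≤ c) :
    U j F x ≤ c := by
  unfold U
  have hc : (0 : ℝ) < Fintype.card K := by exact_mod_cast Fintype.card_pos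
  rw [div_le_iff₀ hc]
  calc ∑ κ, F (upd x j κ) ≤ ∑ _κ : K, c := Finset.sum_le_sum fun κ _ => h κ
    _ = c * Fintype.card K := by
      rw [Finset.sum_const, Finset.card_univ, nsmul_eq_mul]
      ring

omit [DecidableEq K] in
theorem U_neg (j : ℤ) (F : W K → ℝ) (x : W K) : U j (fun y => -F y) x = -U j F x := by
  unfold U
  rw [Finset.sum_neg_distrib]
  ring

omit [DecidableEq K] in
theorem U_abs_le (j : ℤ) (F : W K → ℝ) (x : W K) (c : ℝ) (h : ∀ κ, |F (upd x j κ)| ≤ c) :
    |U j F x| ≤ c := by
  rw [abs_le]
  constructor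
  · have := U_le j (fun y => -F y) x c (fun κ => (neg_le_abs _).trans (h κ))
    rw [U_neg] at this
    linarith
  · exact U_le j F x c (fun κ => (le_abs_self _).trans (h κ))

omit [DecidableEq K] in
theorem U_add (j : ℤ) (F G : W K → ℝ) (x : W K) : U j (fun y => F y + G y) x = U j F x + U j G x := by
  unfold U
  rw [Finset.sum_add_distrib, add_div]

/-- `n` steps of the walk, as an operator on functions. -/
noncomputable def B : ℕ → (W K → ℝ) → W K → ℝ
  | 0, F => V F
  | (n + 1), F => V (M (B n F))

omit [DecidableEq K] in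
theorem B_U (n : ℕ) (j : ℤ) (F : W K → ℝ) : B n (U j F) = U j (B n F) := by
  induction n with
  | zero => exact V_U j F
  | succ n ih => simp only [B]; rw [ih, M_U, V_U]

omit [DecidableEq K] in
theorem B_zero_fun (n : ℕ) : B n (fun _ : W K => (0 : ℝ)) = fun _ => 0 := by
  induction n with
  | zero =>
    ext x
    simp [B, V, U]
  | succ n ih =>
    ext x
    simp [B, ih, V, U, M]

omit [DecidableEq K] in
theorem V_B (n : ℕ) (F : W K → ℝ) : V (B n F) = B n F := by
  cases n with
  | zero => exact V_V F
  | succ n => exact V_V _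

omit [DecidableEq K] in
theorem B_add (n : ℕ) (F G : W K → ℝ) : B n (fun y => F y + G y) = fun y => B n F y + B n G y := by
  induction n with
  | zero =>
    ext x
    exact U_add _ _ _ _
  | succ n ih =>
    ext x
    simp only [B]
    rw [ih]
    have h : (M fun y => B n F y + B n G y) = fun y => M (B n F) y + M (B n G) y := by
      ext y
      unfold M
      ring
    rw [h]
    exact U_add _ _ _ _

omit [DecidableEq K] in
theorem B_smul (n : ℕ) (c : ℝ) (F : W K → ℝ) : B n (fun y => c * F y) = fun y => c * B n F y := by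
  have hV : ∀ G : W K → ℝ, V (fun y => c * G y) = fun y => c * V G y := by
    intro G
    ext x
    show (∑ κ, c * G (upd x x.pos κ)) / (Fintype.card K : ℝ) = c * ((∑ κ, G (upd x x.pos κ)) / (Fintype.card K : ℝ))
    rw [← Finset.mul_sum]
    ring
  induction n with
  | zero => exact hV F
  | succ n ih =>
    simp only [B]
    rw [ih]
    have h : (M fun y => c * B n F y) = fun y => c * M (B n F) y := by
      ext y
      unfold M
      ring
    rw [h, hV]

omit [DecidableEq K] in
theorem B_mono (n : ℕ) {F G : W K → ℝ} (h : ∀ x, F x ≤ G x) (x : W K) : B n F x ≤ B n G x := by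
  induction n generalizing x with
  | zero => exact U_mono _ h x
  | succ n ih =>
    apply U_mono
    intro y
    unfold M
    linarith [ih (mv y (-1)), ih y, ih (mv y 1)]

omit [DecidableEq K] in
theorem B_const (n : ℕ) (c : ℝ) (x : W K) : B n (fun _ => c) x = c := by
  induction n generalizing x with
  | zero => exact U_const_of x.pos (fun _ => c) x c fun _ => rfl
  | succ n ih =>
    show U x.pos (M (B n fun _ => c)) x = c
    apply U_const_of
    intro κ
    unfold M
    rw [ih, ih, ih]
    ring

omit [DecidableEq K] in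
/-- The key estimate: if the average over the lamp at `j` vanishes then `B n Ψ` is bounded by the
probability of not visiting `j`. -/
theorem B_bound (j : ℤ) (Ψ : W K → ℝ) (h1 : ∀ x, |Ψ x| ≤ 1) (h2 : U j Ψ = fun _ => 0) (n : ℕ)
    (x : W K) : |B n Ψ x| ≤ qn n (j - x.pos) := by
  have hU : ∀ n, U j (B n Ψ) = fun _ => 0 := by
    intro n
    rw [← B_U, h2, B_zero_fun]
  induction n generalizing x with
  | zero =>
    unfold qn
    by_cases hx : j - x.pos = 0
    · rw [if_pos hx]
      have hx' : x.pos = j := by omega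
      have : B 0 Ψ x = U j Ψ x := by
        show U x.pos Ψ x = _
        rw [hx']
      rw [this, h2]
      simp
    · rw [if_neg hx]
      exact U_abs_le _ _ _ _ fun κ => h1 _
  | succ n ih =>
    unfold qn
    by_cases hx : j - x.pos = 0
    · rw [if_pos hx]
      have hx' : x.pos = j := by omega
      have : B (n + 1) Ψ x = U j (M (B n Ψ)) x := by
        show U x.pos (M (B n Ψ)) x = _
        rw [hx']
      rw [this, ← M_U, hU]
      simp [M]
    · rw [if_neg hx]
      apply U_abs_le
      intro κ
      have ha := ih (mv (upd x x.pos κ) (-1))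
      have hb := ih (upd x x.pos κ)
      have hc := ih (mv (upd x x.pos κ) 1)
      have e1 : j - (mv (upd x x.pos κ) (-1)).pos = j - x.pos + 1 := by
        show j - (x.pos + -1) = _
        ring
      have e2 : j - (upd x x.pos κ).pos = j - x.pos := rfl
      have e3 : j - (mv (upd x x.pos κ) 1).pos = j - x.pos - 1 := by
        show j - (x.pos + 1) = _
        ring
      rw [e1] at ha
      rw [e2] at hb
      rw [e3] at hc
      unfold M
      rw [abs_le] at ha hb hc ⊢
      constructor <;> linarith [ha.1, ha.2, hb.1, hb.2, hc.1, hc.2]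

omit [DecidableEq K] in
theorem B_le_U (j : ℤ) (F : W K → ℝ) (h0 : ∀ x, 0 ≤ F x) (h1 : ∀ x, F x ≤ 1) (n : ℕ) (x : W K) :
    B n F x ≤ B n (U j F) x + qn n (j - x.pos) := by
  have hU0 : ∀ x, 0 ≤ U j F x := by
    intro x
    unfold U
    exact div_nonneg (Finset.sum_nonneg fun κ _ => h0 _) (Nat.cast_nonneg _)
  have hU1 : ∀ x, U j F x ≤ 1 := fun x => U_le _ _ _ _ fun κ => h1 _
  have h := B_bound j (fun y => F y + -1 * U j F y) (by
    intro x
    rw [abs_le]
    constructor <;> linarith [h0 x, h1 x, hU0 x, hU1 x]) (by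
    ext x
    rw [U_add]
    have e : U j (fun y => -1 * U j F y) x = - U j (U j F) x := by
      rw [← U_neg]
      congr 1
      ext y
      ring
    rw [e, U_U]
    ring) n x
  rw [B_add] at h
  have h2 := congrFun (B_smul n (-1) (U j F)) x
  simp only at h h2
  rw [h2] at h
  have := (abs_le.1 h).2
  linarith

omit [DecidableEq K] in
theorem B_pos (n : ℕ) (a : ℤ) (x : W K) :
    B n (fun y => if y.pos = a then 1 else 0) x = pn n (a - x.pos) := by
  induction n generalizing x with
  | zero =>
    show U x.pos (fun y : W K => if y.pos = a then (1 : ℝ) else 0) x = _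
    apply U_const_of
    intro κ
    rw [pn_zero]
    show (if x.pos = a then (1 : ℝ) else 0) = _
    by_cases h : x.pos = a
    · rw [if_pos h, if_pos (by omega)]
    · rw [if_neg h, if_neg (by omega)]
  | succ n ih =>
    show U x.pos (M (B n fun y : W K => if y.pos = a then (1 : ℝ) else 0)) x = _
    apply U_const_of
    intro κ
    unfold M
    rw [ih, ih, ih, pn_succ]
    have e1 : a - (mv (upd x x.pos κ) (-1)).pos = a - x.pos + 1 := by
      show a - (x.pos + -1) = _
      ring
    have e2 : a - (upd x x.pos κ).pos = a - x.pos := rfl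
    have e3 : a - (mv (upd x x.pos κ) 1).pos = a - x.pos - 1 := by
      show a - (x.pos + 1) = _
      ring
    rw [e1, e2, e3]
    ring

end Pool.Agent.X141.LampWalk
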