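import Mathlib

set_option autoImplicit false
set_option linter.unusedSectionVars false

namespace X141.LT

open Monoid

/-- leaves: words of length `R` -/
abbrev Leaf (q R : ℕ) : Type := {w : List (Fin q) // w.length = R}

/-- index set of the free product -/
abbrev Ix (q R : ℕ) : Type := Leaf q R × Fin q

/-- the group with two elements -/
abbrev C2 : Type := Multiplicative (ZMod 2)

/-- free product of groups of order two -/
abbrev Gam (q R : ℕ) : Type := CoprodI (fun _ : Ix q R => C2)

/-- the generator of `C2` -/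
def gen : C2 := Multiplicative.ofAdd 1

lemma gen_mul_gen : gen * gen = 1 := by decide
lemma gen_ne : gen ≠ 1 := by decide
lemma eq_gen : ∀ m : C2, m ≠ 1 → m = gen := by decide

variable {q R : ℕ}

/-- generators of the free product -/
def s (j : Ix q R) : Gam q R := CoprodI.of (M := fun _ : Ix q R => C2) (i := j) gen

lemma s_mul_s (j : Ix q R) : s j * s j = 1 := by
  unfold s
  rw [← map_mul, gen_mul_gen, map_one]

/-- letters of the reduced word -/
def L (γ : Gam q R) : List (Ix q R) := ((CoprodI.Word.equiv γ).toList).map Sigma.fst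

lemma equiv_mul (j : Ix q R) (γ : Gam q R) :
    CoprodI.Word.equiv (s j * γ) = s j • CoprodI.Word.equiv γ := by
  change (s j * γ) • (CoprodI.Word.empty : CoprodI.Word (fun _ : Ix q R => C2)) =
    s j • (γ • (CoprodI.Word.empty : CoprodI.Word (fun _ : Ix q R => C2)))
  rw [mul_smul]

lemma L_cons (j : Ix q R) (γ : Gam q R) (h : (L γ).head? ≠ some j) :
    L (s j * γ) = j :: L γ := by
  have h1 : (CoprodI.Word.equiv γ).fstIdx ≠ some j := by
    unfold CoprodI.Word.fstIdx
    unfold L at h
    rwa [List.head?_map] at h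
  have h2 := CoprodI.Word.cons_eq_smul (M := fun _ : Ix q R => C2) (i := j) (m := gen)
    (ls := CoprodI.Word.equiv γ) (h1 := h1) (h2 := gen_ne)
  unfold L
  rw [equiv_mul]
  unfold s
  rw [← h2]
  rfl

lemma L_uncons (j : Ix q R) (γ : Gam q R) (l : List (Ix q R)) (h : L γ = j :: l) :
    L (s j * γ) = l := by
  unfold L at h ⊢
  rw [equiv_mul]
  generalize CoprodI.Word.equiv γ = w at h
  induction w using CoprodI.Word.consRecOn with
  | empty => simp [CoprodI.Word.empty] at h
  | cons i m w h1 h2 _ =>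
    have h3 : i :: (w.toList.map Sigma.fst) = j :: l := h
    have h4 : i = j := (List.cons.inj h3).1
    have h5 : w.toList.map Sigma.fst = l := (List.cons.inj h3).2
    subst h4
    have hm := eq_gen m h2
    subst hm
    rw [CoprodI.Word.cons_eq_smul]
    have h6 : s i • (CoprodI.of (M := fun _ : Ix q R => C2) (i := i) gen) • w = w := by
      rw [← mul_smul]
      change (s i * s i) • w = w
      rw [s_mul_s, one_smul]
    rw [h6, h5]

lemma L_one : L (1 : Gam q R) = [] := by
  unfold L
  change (((1 : Gam q R) • (CoprodI.Word.empty : CoprodI.Word (fun _ : Ix q R => C2))).toList).map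
    Sigma.fst = []
  rw [one_smul]
  rfl

/-! ### The graph -/

/-- vertices of the finite tree -/
abbrev Fv (q R : ℕ) : Type := {w : List (Fin q) // w.length ≤ R}

/-- vertices of the graph -/
abbrev Vx (q R : ℕ) : Type := Gam q R × Fv q R

/-- the neighbours: `none` is the parent in the finite tree (the root itself at the root), `some i`
the child number `i`, or, at a leaf, the same leaf of the adjacent copy number `i` -/
def nbr : Vx q R → Option (Fin q) → Vx q R
  | (γ, w), none => (γ, ⟨w.1.tail, by rw [List.length_tail]; have := w.2; omega⟩)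
  | (γ, w), some i => if h : w.1.length < R then (γ, ⟨i :: w.1, by simp; omega⟩)
      else (s (⟨w.1, le_antisymm w.2 (not_lt.1 h)⟩, i) * γ, w)

/-- the reverse directed edge label -/
def rev : Vx q R → Option (Fin q) → Option (Fin q)
  | (_, w), none => w.1.head?
  | (_, w), some i => if w.1.length < R then none else some i

lemma nbr_none (γ : Gam q R) (w : Fv q R) : nbr (γ, w) none =
    (γ, ⟨w.1.tail, by rw [List.length_tail]; have := w.2; omega⟩) := rfl

lemma nbr_lt (γ : Gam q R) (w : Fv q R) (i : Fin q) (h : w.1.length < R) :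
    nbr (γ, w) (some i) = (γ, ⟨i :: w.1, by simp; omega⟩) := by
  simp [nbr, h]

lemma nbr_leaf (γ : Gam q R) (w : Fv q R) (i : Fin q) (h : w.1.length = R) :
    nbr (γ, w) (some i) = (s (⟨w.1, h⟩, i) * γ, w) := by
  simp [nbr, h]

lemma nbr_rev (x : Vx q R) (o : Option (Fin q)) : nbr (nbr x o) (rev x o) = x := by
  obtain ⟨γ, w, hw⟩ := x
  cases o with
  | none =>
    cases w with
    | nil => rfl
    | cons i w =>
      simp only [List.length_cons] at hw
      rw [nbr_none]
      simp only [List.tail_cons, rev, List.head?_cons]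
      rw [nbr_lt _ _ _ (by simp; omega)]
  | some i =>
    by_cases h : w.length < R
    · rw [nbr_lt _ _ _ h]
      simp only [rev, h, if_true]
      rw [nbr_none]
      rfl
    · have h' : w.length = R := le_antisymm hw (not_lt.1 h)
      rw [nbr_leaf _ _ _ h']
      simp only [rev, h, if_false]
      rw [nbr_leaf _ _ _ h', ← mul_assoc, s_mul_s, one_mul]

lemma rev_rev (x : Vx q R) (o : Option (Fin q)) : rev (nbr x o) (rev x o) = o := by
  obtain ⟨γ, w, hw⟩ := x
  cases o with
  | none =>
    cases w with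
    | nil => rfl
    | cons i w =>
      simp only [List.length_cons] at hw
      rw [nbr_none]
      simp only [List.tail_cons, rev, List.head?_cons]
      rw [if_pos (by omega)]
  | some i =>
    by_cases h : w.length < R
    · rw [nbr_lt _ _ _ h]
      simp [rev, h]
    · have h' : w.length = R := le_antisymm hw (not_lt.1 h)
      rw [nbr_leaf _ _ _ h']
      simp [rev, h]

/-- right multiplications -/
def rmul (g : Gam q R) : Vx q R ≃ Vx q R where
  toFun x := (x.1 * g, x.2)
  invFun x := (x.1 * g⁻¹, x.2)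
  left_inv x := by simp
  right_inv x := by simp

lemma nbr_rmul (g : Gam q R) (x : Vx q R) (o : Option (Fin q)) :
    nbr (rmul g x) o = rmul g (nbr x o) := by
  obtain ⟨γ, w⟩ := x
  cases o with
  | none => rfl
  | some i =>
    by_cases h : w.1.length < R
    · change nbr (γ * g, w) (some i) = rmul g (nbr (γ, w) (some i))
      rw [nbr_lt _ _ _ h, nbr_lt _ _ _ h]
      rfl
    · have h' : w.1.length = R := le_antisymm w.2 (not_lt.1 h)
      change nbr (γ * g, w) (some i) = rmul g (nbr (γ, w) (some i))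
      rw [nbr_leaf _ _ _ h', nbr_leaf _ _ _ h']
      simp only [rmul, Equiv.coe_fn_mk, mul_assoc]

/-! ### The supersolution -/

/-- ratio on upward edges -/
noncomputable def cc (q m : ℕ) : ℝ := (1 / √(q : ℝ)) * (1 + 1 / (1 + 2 * (q : ℝ) ^ m))

lemma sq_pos (hq : 2 ≤ q) : 0 < √(q : ℝ) := by
  apply Real.sqrt_pos.2
  have : (2 : ℝ) ≤ q := by exact_mod_cast hq
  linarith

lemma sq_sq : √(q : ℝ) * √(q : ℝ) = q := Real.mul_self_sqrt (by positivity)

lemma cc_pos (hq : 2 ≤ q) (m : ℕ) : 0 < cc q m := by
  unfold cc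
  have := sq_pos hq
  positivity

lemma num1 (hq : 2 ≤ q) (m : ℕ) :
    1 / cc q (m + 1) + ((q : ℝ) - 1) / √(q : ℝ) + cc q m ≤ 2 * √(q : ℝ) := by
  have h0 := sq_pos hq
  have h1 := sq_sq (q := q)
  have h2 : (2 : ℝ) ≤ q := by exact_mod_cast hq
  set a := √(q : ℝ) with ha
  have ht : (0 : ℝ) < (q : ℝ) ^ m := by positivity
  unfold cc
  rw [← ha, pow_succ]
  set t := (q : ℝ) ^ m with htt
  have e1 : 1 / ((1 / a) * (1 + 1 / (1 + 2 * (t * q)))) = a * (1 - 1 / (2 + 2 * (t * q))) := by
    have h3 : (0 : ℝ) < 1 + 2 * (t * q) := by positivity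
    have h4 : (0 : ℝ) < 2 + 2 * (t * q) := by positivity
    field_simp
    ring
  have e2 : 2 * a - (a * (1 - 1 / (2 + 2 * (t * q))) + ((q : ℝ) - 1) / a +
      1 / a * (1 + 1 / (1 + 2 * t))) = (1 / a) * (q / (2 + 2 * (t * q)) - 1 / (1 + 2 * t)) := by
    rw [← h1]
    field_simp
    ring
  have e3 : 1 / (1 + 2 * t) ≤ q / (2 + 2 * (t * q)) := by
    rw [div_le_div_iff₀ (by positivity) (by positivity)]
    nlinarith
  have e4 : 0 ≤ (1 / a) * (q / (2 + 2 * (t * q)) - 1 / (1 + 2 * t)) := by
    apply mul_nonneg (by positivity)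
    linarith
  rw [e1]
  linarith

lemma num0 (hq : 2 ≤ q) :
    1 / cc q 0 + ((q : ℝ) - 1) / √(q : ℝ) + 1 ≤ 2 * √(q : ℝ) := by
  have h0 := sq_pos hq
  have h1 := sq_sq (q := q)
  have h2 : (2 : ℝ) ≤ q := by exact_mod_cast hq
  set a := √(q : ℝ) with ha
  unfold cc
  rw [← ha, pow_zero]
  have e1 : 1 / ((1 / a) * (1 + 1 / (1 + 2 * 1))) = a * (3 / 4) := by
    field_simp
    norm_num
  have e2 : 2 * a - (a * (3 / 4) + ((q : ℝ) - 1) / a + 1) = (1 / (4 * a)) * (a - 2) ^ 2 := by
    rw [← h1]
    field_simp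
    ring
  have e3 : 0 ≤ (1 / (4 * a)) * (a - 2) ^ 2 := by positivity
  rw [e1]
  linarith

lemma numR (hq : 2 ≤ q) (m : ℕ) :
    cc q m + ((q : ℝ) - 1) / √(q : ℝ) + √(q : ℝ) ≤
      2 * √(q : ℝ) + √(q : ℝ) / (2 * (q : ℝ) ^ (m + 1)) := by
  have h0 := sq_pos hq
  have h1 := sq_sq (q := q)
  have h2 : (2 : ℝ) ≤ q := by exact_mod_cast hq
  set a := √(q : ℝ) with ha
  have ht : (0 : ℝ) < (q : ℝ) ^ m := by positivity
  unfold cc
  rw [← ha, pow_succ]
  set t := (q : ℝ) ^ m with htt
  have e2 : 2 * a + a / (2 * (t * q)) - (1 / a * (1 + 1 / (1 + 2 * t)) + ((q : ℝ) - 1) / a + a) =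
      (1 / a) * (1 / (2 * t) - 1 / (1 + 2 * t)) := by
    rw [← h1]
    field_simp
    ring
  have e3 : 1 / (1 + 2 * t) ≤ 1 / (2 * t) := by
    apply one_div_le_one_div_of_le (by positivity)
    linarith
  have e4 : 0 ≤ (1 / a) * (1 / (2 * t) - 1 / (1 + 2 * t)) := by
    apply mul_nonneg (by positivity)
    linarith
  linarith

/-- profile inside a copy entered at `e` -/
noncomputable def ff (e : List (Fin q)) : List (Fin q) → ℝ
  | [] => 1
  | i :: w => if (i :: w) <:+ e then ff e w / cc q w.length else ff e w / √(q : ℝ)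

lemma ff_pos (hq : 2 ≤ q) (e w : List (Fin q)) : 0 < ff e w := by
  induction w with
  | nil => simp [ff]
  | cons i w ih =>
    unfold ff
    have h1 := cc_pos hq w.length
    have h2 := sq_pos hq
    split_ifs <;> positivity

lemma ff_cons_pos {e w : List (Fin q)} {i : Fin q} (h : (i :: w) <:+ e) :
    ff e (i :: w) = ff e w / cc q w.length := by
  rw [ff, if_pos h]

lemma ff_cons_neg {e w : List (Fin q)} {i : Fin q} (h : ¬ (i :: w) <:+ e) :
    ff e (i :: w) = ff e w / √(q : ℝ) := by
  rw [ff, if_neg h]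

lemma exists_child {e w : List (Fin q)} (h : w <:+ e) (hlt : w.length < e.length) :
    ∃ i0, ∀ i, (i :: w) <:+ e ↔ i = i0 := by
  obtain ⟨t, ht⟩ := h
  have hne : t ≠ [] := by
    rintro rfl
    rw [List.nil_append] at ht
    rw [ht] at hlt
    exact lt_irrefl _ hlt
  obtain ⟨t', i0, ht'⟩ := (List.eq_nil_or_concat t).resolve_left hne
  refine ⟨i0, fun i => ?_⟩
  have h0 : (i0 :: w) <:+ e := ⟨t', by rw [← ht, ht']; simp⟩
  constructor
  · intro hi
    have h3 := List.suffix_of_suffix_length_le hi h0 (by simp)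
    have h4 := h3.eq_of_length (by simp)
    exact (List.cons.inj h4).1
  · rintro rfl
    exact h0

lemma sum_children_suffix {e w : List (Fin q)} (h : w <:+ e)
    (hlt : w.length < e.length) :
    ∑ i, ff e (i :: w) = (1 / cc q w.length + ((q : ℝ) - 1) / √(q : ℝ)) * ff e w := by
  obtain ⟨i0, hi0⟩ := exists_child h hlt
  have h1 : ∀ i, ff e (i :: w) = ff e w / √(q : ℝ) +
      if i = i0 then ff e w / cc q w.length - ff e w / √(q : ℝ) else 0 := by
    intro i
    by_cases hi : i = i0
    · rw [if_pos hi, ff_cons_pos ((hi0 i).2 hi)]; ring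
    · rw [if_neg hi, ff_cons_neg (fun h => hi ((hi0 i).1 h))]; ring
  rw [Finset.sum_congr rfl (fun i _ => h1 i), Finset.sum_add_distrib, Finset.sum_ite_eq']
  simp
  ring

lemma sum_children_not {e w : List (Fin q)} (h : ¬ w <:+ e) :
    ∑ i, ff e (i :: w) = √(q : ℝ) * ff e w := by
  have h1 : ∀ i, ff e (i :: w) = ff e w / √(q : ℝ) := by
    intro i
    apply ff_cons_neg
    intro h2
    exact h ((List.suffix_cons i w).trans h2)
  rw [Finset.sum_congr rfl (fun i _ => h1 i)]
  simp only [Finset.sum_const, Finset.card_univ, Fintype.card_fin, nsmul_eq_mul]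
  have h1 := sq_sq (q := q)
  by_cases hq0 : √(q : ℝ) = 0
  · rw [hq0]; simp
  · field_simp
    rw [sq, h1]
    ring

/-- entry leaf -/
def ent (l0 : Leaf q R) : List (Ix q R) → Leaf q R
  | [] => l0
  | j :: _ => j.1

/-- weights of copies -/
noncomputable def Wt (l0 : Leaf q R) : List (Ix q R) → ℝ
  | [] => 1
  | j :: l => Wt l0 l * ff (ent l0 l).1 j.1.1 / (√(q : ℝ) * ff j.1.1 j.1.1)

/-- the supersolution -/
noncomputable def hh (l0 : Leaf q R) (x : Vx q R) : ℝ :=
  Wt l0 (L x.1) * ff (ent l0 (L x.1)).1 x.2.1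

lemma Wt_pos (hq : 2 ≤ q) (l0 : Leaf q R) (l : List (Ix q R)) : 0 < Wt l0 l := by
  induction l with
  | nil => simp [Wt]
  | cons j l ih =>
    unfold Wt
    have h1 := ff_pos hq (ent l0 l).1 j.1.1
    have h2 := ff_pos hq j.1.1 j.1.1
    have h3 := sq_pos hq
    positivity

lemma hh_pos (hq : 2 ≤ q) (l0 : Leaf q R) (x : Vx q R) : 0 < hh l0 x :=
  mul_pos (Wt_pos hq l0 _) (ff_pos hq _ _)

/-- going out of a copy -/
lemma hh_out (hq : 2 ≤ q) (l0 : Leaf q R) (γ : Gam q R) (w : Fv q R) (hw : w.1.length = R)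
    (i : Fin q) (h : (L γ).head? ≠ some (⟨w.1, hw⟩, i)) :
    hh l0 (s (⟨w.1, hw⟩, i) * γ, w) = hh l0 (γ, w) / √(q : ℝ) := by
  unfold hh
  simp only
  rw [L_cons _ _ h]
  simp only [Wt, ent]
  have h2 := ff_pos hq w.1 w.1
  have h3 := sq_pos hq
  field_simp

/-- going back -/
lemma hh_back (hq : 2 ≤ q) (l0 : Leaf q R) (γ : Gam q R) (w : Fv q R) (hw : w.1.length = R)
    (i : Fin q) (h : (L γ).head? = some (⟨w.1, hw⟩, i)) :
    hh l0 (s (⟨w.1, hw⟩, i) * γ, w) = √(q : ℝ) * hh l0 (γ, w) := by
  obtain ⟨l, hl⟩ : ∃ l, L γ = (⟨w.1, hw⟩, i) :: l := by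
    cases hL : L γ with
    | nil => rw [hL] at h; simp at h
    | cons j l =>
      rw [hL, List.head?_cons] at h
      exact ⟨l, by rw [Option.some.inj h]⟩
  unfold hh
  simp only
  rw [L_uncons _ _ l hl, hl]
  simp only [Wt, ent]
  have h2 := ff_pos hq w.1 w.1
  have h3 := sq_pos hq
  field_simp

lemma super (hq : 2 ≤ q) (hR : 1 ≤ R) (l0 : Leaf q R) (x : Vx q R) :
    ∑ o, hh l0 (nbr x o) ≤ (2 * √(q : ℝ) + √(q : ℝ) / (2 * (q : ℝ) ^ R)) * hh l0 x := by
  have hsq := sq_pos hq
  have hqr : (2 : ℝ) ≤ q := by exact_mod_cast hq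
  obtain ⟨γ, w⟩ := x
  set e := ent l0 (L γ) with he
  have hWt := Wt_pos hq l0 (L γ)
  have hx : hh l0 (γ, w) = Wt l0 (L γ) * ff e.1 w.1 := rfl
  have hxpos : 0 < hh l0 (γ, w) := hh_pos hq l0 _
  have heps : 0 ≤ √(q : ℝ) / (2 * (q : ℝ) ^ R) := by positivity
  rw [Fintype.sum_option]
  suffices hmain : hh l0 (nbr (γ, w) none) + ∑ i, hh l0 (nbr (γ, w) (some i)) ≤
      2 * √(q : ℝ) * hh l0 (γ, w) ∨ hh l0 (nbr (γ, w) none) + ∑ i, hh l0 (nbr (γ, w) (some i)) ≤
      (2 * √(q : ℝ) + √(q : ℝ) / (2 * (q : ℝ) ^ R)) * hh l0 (γ, w) by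
    rcases hmain with h | h
    · refine h.trans ?_
      apply mul_le_mul_of_nonneg_right _ hxpos.le
      linarith
    · exact h
  by_cases hlt : w.1.length < R
  · -- inside the finite tree
    left
    have h1 : ∀ i, hh l0 (nbr (γ, w) (some i)) = Wt l0 (L γ) * ff e.1 (i :: w.1) := by
      intro i
      rw [nbr_lt _ _ _ hlt]
      rfl
    rw [Finset.sum_congr rfl (fun i _ => h1 i), ← Finset.mul_sum]
    have h2 : hh l0 (nbr (γ, w) none) = Wt l0 (L γ) * ff e.1 w.1.tail := rfl
    rw [h2, hx, ← mul_add]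
    have hlen : w.1.length < e.1.length := by rw [e.2]; exact hlt
    have goal : ff e.1 w.1.tail + ∑ i, ff e.1 (i :: w.1) ≤ 2 * √(q : ℝ) * ff e.1 w.1 := by
      have hf := ff_pos hq e.1 w.1
      cases hw : w.1 with
      | nil =>
        rw [hw] at hf hlen
        rw [sum_children_suffix (List.nil_suffix) hlen]
        have := mul_le_mul_of_nonneg_right (num0 hq) hf.le
        simp only [List.tail_nil, List.length_nil]
        linarith
      | cons i w' =>
        rw [hw] at hf hlen
        simp only [List.tail_cons]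
        by_cases hs : (i :: w') <:+ e.1
        · rw [sum_children_suffix hs hlen]
          have h3 : ff e.1 w' = cc q w'.length * ff e.1 (i :: w') := by
            rw [ff_cons_pos hs]
            have := cc_pos hq w'.length
            field_simp
          rw [h3]
          have := mul_le_mul_of_nonneg_right (num1 hq w'.length) hf.le
          simp only [List.length_cons]
          linarith
        · rw [sum_children_not hs]
          have h3 : ff e.1 w' = √(q : ℝ) * ff e.1 (i :: w') := by
            rw [ff_cons_neg hs]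
            field_simp
          rw [h3]
          linarith
    calc Wt l0 (L γ) * (ff e.1 w.1.tail + ∑ i, ff e.1 (i :: w.1)) ≤
        Wt l0 (L γ) * (2 * √(q : ℝ) * ff e.1 w.1) := mul_le_mul_of_nonneg_left goal hWt.le
      _ = _ := by ring
  · have hw : w.1.length = R := le_antisymm w.2 (not_lt.1 hlt)
    have h1 : ∀ i, nbr (γ, w) (some i) = (s (⟨w.1, hw⟩, i) * γ, w) := fun i => nbr_leaf γ w i hw
    have h2 : hh l0 (nbr (γ, w) none) = Wt l0 (L γ) * ff e.1 w.1.tail := rfl
    obtain ⟨i1, w', hw'⟩ : ∃ i1 w', w.1 = i1 :: w' := by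
      cases h : w.1 with
      | nil => rw [h] at hw; simp at hw; omega
      | cons i1 w' => exact ⟨i1, w', rfl⟩
    have hlen' : w'.length + 1 = R := by rw [hw'] at hw; simpa using hw
    by_cases hwe : w.1 = e.1
    · -- the entry leaf
      right
      have h3 : hh l0 (nbr (γ, w) none) = cc q w'.length * hh l0 (γ, w) := by
        rw [h2, hx, hw']
        have : (i1 :: w') <:+ e.1 := by rw [← hw', hwe]
        rw [ff_cons_pos this, List.tail_cons]
        have := cc_pos hq w'.length
        field_simp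
      have h4 : ∑ i, hh l0 (nbr (γ, w) (some i)) ≤
          (((q : ℝ) - 1) / √(q : ℝ) + √(q : ℝ)) * hh l0 (γ, w) := by
        have hle : ∀ i, hh l0 (nbr (γ, w) (some i)) ≤ hh l0 (γ, w) / √(q : ℝ) +
            (if (L γ).head? = some (⟨w.1, hw⟩, i) then
              √(q : ℝ) * hh l0 (γ, w) - hh l0 (γ, w) / √(q : ℝ) else 0) := by
          intro i
          rw [h1]
          split_ifs with hh1
          · rw [hh_back hq l0 γ w hw i hh1]; linarith
          · rw [hh_out hq l0 γ w hw i hh1]; linarith
        refine (Finset.sum_le_sum (fun i _ => hle i)).trans ?_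
        rw [Finset.sum_add_distrib]
        have hpos : 0 ≤ √(q : ℝ) * hh l0 (γ, w) - hh l0 (γ, w) / √(q : ℝ) := by
          have h5 : hh l0 (γ, w) / √(q : ℝ) ≤ √(q : ℝ) * hh l0 (γ, w) := by
            rw [div_le_iff₀ hsq]
            have := sq_sq (q := q)
            nlinarith
          linarith
        have h6 : ∑ i, (if (L γ).head? = some ((⟨w.1, hw⟩ : Leaf q R), i) then
              √(q : ℝ) * hh l0 (γ, w) - hh l0 (γ, w) / √(q : ℝ) else 0) ≤
              √(q : ℝ) * hh l0 (γ, w) - hh l0 (γ, w) / √(q : ℝ) := by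
          by_cases hex : ∃ i0, (L γ).head? = some ((⟨w.1, hw⟩ : Leaf q R), i0)
          · obtain ⟨i0, hi0⟩ := hex
            rw [Finset.sum_eq_single i0]
            · rw [if_pos hi0]
            · intro i _ hi
              rw [if_neg]
              rw [hi0]
              intro h7
              apply hi
              have := Option.some.inj h7
              exact (congrArg Prod.snd this).symm
            · intro h7; exact absurd (Finset.mem_univ _) h7
          · rw [Finset.sum_eq_zero]
            · exact hpos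
            · intro i _
              rw [if_neg]
              exact fun h7 => hex ⟨i, h7⟩
        have h7 : ∑ _i : Fin q, hh l0 (γ, w) / √(q : ℝ) = q * (hh l0 (γ, w) / √(q : ℝ)) := by
          simp
        rw [h7]
        have h8 : (((q : ℝ) - 1) / √(q : ℝ) + √(q : ℝ)) * hh l0 (γ, w) =
            q * (hh l0 (γ, w) / √(q : ℝ)) + (√(q : ℝ) * hh l0 (γ, w) - hh l0 (γ, w) / √(q : ℝ)) := by
          ring
        rw [h8]
        linarith
      have h5 := mul_le_mul_of_nonneg_right (numR hq w'.length) hxpos.le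
      rw [hlen'] at h5
      rw [h3]
      calc cc q w'.length * hh l0 (γ, w) + ∑ i, hh l0 (nbr (γ, w) (some i)) ≤
          cc q w'.length * hh l0 (γ, w) + (((q : ℝ) - 1) / √(q : ℝ) + √(q : ℝ)) * hh l0 (γ, w) := by
            linarith
        _ = (cc q w'.length + ((q : ℝ) - 1) / √(q : ℝ) + √(q : ℝ)) * hh l0 (γ, w) := by ring
        _ ≤ _ := h5
    · -- another leaf
      left
      have hns : ¬ w.1 <:+ e.1 := by
        intro hs
        exact hwe (hs.eq_of_length (by rw [hw, e.2]))
      have h3 : hh l0 (nbr (γ, w) none) = √(q : ℝ) * hh l0 (γ, w) := by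
        rw [h2, hx]
        rw [hw'] at hns ⊢
        rw [ff_cons_neg hns, List.tail_cons]
        field_simp
      have h4 : ∀ i, hh l0 (nbr (γ, w) (some i)) = hh l0 (γ, w) / √(q : ℝ) := by
        intro i
        rw [h1]
        apply hh_out hq l0 γ w hw i
        intro h5
        apply hwe
        have h6 : e = ⟨w.1, hw⟩ := by
          rw [he]
          cases hL : L γ with
          | nil => rw [hL] at h5; simp at h5
          | cons j l =>
            rw [hL, List.head?_cons] at h5
            have := Option.some.inj h5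
            simp only [ent]
            rw [this]
        rw [h6]
      rw [h3, Finset.sum_congr rfl (fun i _ => h4 i)]
      simp only [Finset.sum_const, Finset.card_univ, Fintype.card_fin, nsmul_eq_mul]
      have h5 : (q : ℝ) * (hh l0 (γ, w) / √(q : ℝ)) = √(q : ℝ) * hh l0 (γ, w) := by
        have := sq_sq (q := q)
        field_simp
        rw [sq, this]
      rw [h5]
      linarith

/-! ### Infinite, countable, connected, cardinality -/

/-- alternating letters -/
def alt (hq : 2 ≤ q) (l0 : Leaf q R) (n : ℕ) : Ix q R :=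
  (l0, if n % 2 = 0 then ⟨0, by omega⟩ else ⟨1, by omega⟩)

lemma alt_ne (hq : 2 ≤ q) (l0 : Leaf q R) (n : ℕ) : alt hq l0 n ≠ alt hq l0 (n + 1) := by
  intro h
  have h2 := congrArg (fun j : Ix q R => j.2.val) h
  simp only [alt] at h2
  rcases Nat.mod_two_eq_zero_or_one n with h3 | h3
  · have h4 : (n + 1) % 2 ≠ 0 := by omega
    rw [if_pos h3, if_neg h4] at h2
    simp at h2
  · have h4 : (n + 1) % 2 = 0 := by omega
    have h5 : n % 2 ≠ 0 := by omega
    rw [if_neg h5, if_pos h4] at h2
    simp at h2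

/-- alternating words -/
def gam (hq : 2 ≤ q) (l0 : Leaf q R) : ℕ → Gam q R
  | 0 => 1
  | n + 1 => s (alt hq l0 n) * gam hq l0 n

lemma gam_spec (hq : 2 ≤ q) (l0 : Leaf q R) (n : ℕ) :
    (L (gam hq l0 n)).length = n ∧ (L (gam hq l0 n)).head? ≠ some (alt hq l0 n) := by
  induction n with
  | zero =>
    simp only [gam]
    rw [L_one]
    simp
  | succ n ih =>
    simp only [gam]
    rw [L_cons _ _ ih.2]
    refine ⟨by simp [ih.1], ?_⟩
    rw [List.head?_cons]
    intro h
    exact alt_ne hq l0 n (Option.some.inj h)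

lemma infinite_Gam (hq : 2 ≤ q) (l0 : Leaf q R) : Infinite (Gam q R) := by
  apply Infinite.of_injective (gam hq l0)
  intro m n h
  rw [← (gam_spec hq l0 m).1, ← (gam_spec hq l0 n).1, h]

lemma countable_Gam : Countable (Gam q R) := by
  have h1 : Countable (CoprodI.Word (fun _ : Ix q R => C2)) := by
    have hinj : Function.Injective (fun w : CoprodI.Word (fun _ : Ix q R => C2) => w.toList) := by
      intro w w' h
      exact CoprodI.Word.ext h
    exact hinj.countable
  exact (CoprodI.Word.equiv (M := fun _ : Ix q R => C2)).injective.countable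

/-- adjacency relation -/
def rel (x y : Vx q R) : Prop := ∃ o, nbr x o = y

lemma rel_symm {x y : Vx q R} (h : rel x y) : rel y x := by
  obtain ⟨o, rfl⟩ := h
  exact ⟨rev x o, nbr_rev x o⟩

lemma reach_symm {x y : Vx q R} (h : Relation.ReflTransGen rel x y) :
    Relation.ReflTransGen rel y x := by
  induction h with
  | refl => exact Relation.ReflTransGen.refl
  | tail _ h ih => exact Relation.ReflTransGen.head (rel_symm h) ih

lemma root_reach (γ : Gam q R) (w : List (Fin q)) (hw : w.length ≤ R) :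
    Relation.ReflTransGen rel ((γ, ⟨w, hw⟩) : Vx q R) (γ, ⟨[], Nat.zero_le _⟩) := by
  induction w with
  | nil => exact Relation.ReflTransGen.refl
  | cons i w ih =>
    simp only [List.length_cons] at hw
    refine Relation.ReflTransGen.head ⟨none, ?_⟩ (ih (by omega))
    rfl

lemma s_reach (γ : Gam q R) (j : Ix q R) :
    Relation.ReflTransGen rel ((γ, ⟨[], Nat.zero_le _⟩) : Vx q R)
      (s j * γ, ⟨[], Nat.zero_le _⟩) := by
  obtain ⟨⟨w, hw⟩, i⟩ := j
  have h1 := reach_symm (root_reach γ w hw.le)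
  refine h1.trans (Relation.ReflTransGen.head ⟨some i, ?_⟩ (root_reach _ w hw.le))
  rw [nbr_leaf _ _ _ hw]

lemma reach_all (x : Vx q R) :
    Relation.ReflTransGen rel ((1, ⟨[], Nat.zero_le _⟩) : Vx q R) x := by
  obtain ⟨γ, w, hw⟩ := x
  have h1 : Relation.ReflTransGen rel ((1, ⟨[], Nat.zero_le _⟩) : Vx q R)
      (γ, ⟨[], Nat.zero_le _⟩) := by
    induction γ using CoprodI.induction_left with
    | one => exact Relation.ReflTransGen.refl
    | mul m x ih =>
      rename_i i
      by_cases hm : m = 1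
      · rw [hm, map_one, one_mul]; exact ih
      · have := eq_gen m hm
        subst this
        exact ih.trans (s_reach x i)
  exact h1.trans (reach_symm (root_reach γ w hw))

lemma reach (x y : Vx q R) : Relation.ReflTransGen rel x y :=
  (reach_symm (reach_all x)).trans (reach_all y)

/-- coding of the vertices of the finite tree -/
def code (w : Fv q R) : Σ m : Fin (R + 1), List.Vector (Fin q) m.val :=
  ⟨⟨w.1.length, by have := w.2; omega⟩, ⟨w.1, rfl⟩⟩

lemma code_inj : Function.Injective (code (q := q) (R := R)) := by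
  intro w w' h
  have h2 : ((code w).2 : List.Vector (Fin q) _).toList = (code w').2.toList := by rw [h]
  exact Subtype.ext h2

noncomputable instance : Fintype (Fv q R) := Fintype.ofInjective code code_inj

lemma card_Fv (hq : 2 ≤ q) : (Fintype.card (Fv q R) : ℝ) ≤ 2 * (q : ℝ) ^ R := by
  have h1 : Fintype.card (Fv q R) ≤ ∑ m ∈ Finset.range (R + 1), q ^ m := by
    have := Fintype.card_le_of_injective _ (code_inj (q := q) (R := R))
    rw [Fintype.card_sigma] at this
    refine this.trans (le_of_eq ?_)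
    rw [← Fin.sum_univ_eq_sum_range (fun m => q ^ m) (R + 1)]
    apply Finset.sum_congr rfl
    intro m _
    rw [card_vector, Fintype.card_fin]
  have h2 : ∑ m ∈ Finset.range (R + 1), q ^ m ≤ 2 * q ^ R := by
    clear h1
    induction R with
    | zero => simp
    | succ R ih =>
      rw [Finset.sum_range_succ, pow_succ]
      have h3 : 0 < q ^ R := by positivity
      nlinarith
  exact_mod_cast h1.trans h2

end X141.LT
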