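import Mathlib

set_option autoImplicit false

namespace Pool.Agent.X141.Wirt

open ZMod Finset

variable {N : ℕ} [NeZero N]

theorem conj_stdAddChar (a : ZMod N) : (starRingEnd ℂ) (stdAddChar a : ℂ) = stdAddChar (-a) := by
  rw [← AddChar.inv_apply_eq_conj, AddChar.map_neg_eq_inv]

theorem parseval (Φ : ZMod N → ℂ) :
    ∑ k, ‖dft Φ k‖ ^ 2 = N * ∑ j, ‖Φ j‖ ^ 2 := by
  have hN : (N : ℂ) ≠ 0 := by exact_mod_cast NeZero.ne N
  have key : ∀ j, (N : ℂ) * Φ j = ∑ k : ZMod N, stdAddChar (k * j) * dft Φ k := by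
    intro j
    have h := congrFun ((LinearEquiv.symm_apply_apply dft Φ)) j
    rw [invDFT_apply] at h
    rw [← h]
    simp only [smul_eq_mul]
    rw [← mul_assoc, mul_inv_cancel₀ hN, one_mul]
  have hC : ((∑ k, ‖dft Φ k‖ ^ 2 : ℝ) : ℂ) = ((N * ∑ j, ‖Φ j‖ ^ 2 : ℝ) : ℂ) := by
    push_cast
    have h1 : ∀ k, ((‖dft Φ k‖ : ℂ)) ^ 2 = dft Φ k * (starRingEnd ℂ) (dft Φ k) := by
      intro k
      rw [Complex.mul_conj, Complex.normSq_eq_norm_sq]
      push_cast
      rfl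
    have h2 : ∀ j, ((‖Φ j‖ : ℂ)) ^ 2 = Φ j * (starRingEnd ℂ) (Φ j) := by
      intro k
      rw [Complex.mul_conj, Complex.normSq_eq_norm_sq]
      push_cast
      rfl
    simp_rw [h1, h2, Finset.mul_sum, ← mul_assoc, key, Finset.sum_mul]
    rw [Finset.sum_comm]
    refine Finset.sum_congr rfl fun k _ => ?_
    have h3 : (starRingEnd ℂ) (dft Φ k) = ∑ j, stdAddChar (k * j) * (starRingEnd ℂ) (Φ j) := by
      rw [dft_apply]
      simp only [smul_eq_mul, map_sum, map_mul]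
      refine Finset.sum_congr rfl fun j _ => ?_
      rw [conj_stdAddChar, neg_neg, mul_comm k j]
    rw [h3, Finset.mul_sum]
    refine Finset.sum_congr rfl fun j _ => ?_
    ring
  exact_mod_cast hC

theorem dft_shift (Φ : ZMod N → ℂ) (k : ZMod N) :
    dft (fun j => Φ (j + 1)) k = stdAddChar k * dft Φ k := by
  rw [dft_apply, dft_apply, Finset.mul_sum]
  simp only [smul_eq_mul]
  refine Fintype.sum_equiv (Equiv.addRight (1 : ZMod N)) _ _ fun j => ?_
  simp only [Equiv.coe_addRight]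
  rw [← mul_assoc, ← AddChar.map_add_eq_mul]
  congr 2
  ring

theorem norm_stdAddChar_sub_one (k : ZMod N) :
    ‖(stdAddChar k : ℂ) - 1‖ ^ 2 = 2 * (1 - Real.cos (2 * Real.pi * (k.val : ℝ) / N)) := by
  have h : (stdAddChar k : ℂ) = Complex.exp ((2 * Real.pi * (k.val : ℝ) / N : ℝ) * Complex.I) := by
    conv_lhs => rw [← ZMod.natCast_zmod_val k]
    have := stdAddChar_coe (N := N) (k.val : ℤ)
    push_cast at this
    rw [this]
    congr 1
    push_cast
    ring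
  rw [h, ← Complex.normSq_eq_norm_sq, Complex.normSq_apply, Complex.sub_re, Complex.sub_im,
    Complex.exp_ofReal_mul_I_re, Complex.exp_ofReal_mul_I_im]
  simp only [Complex.one_re, Complex.one_im]
  nlinarith [Real.sin_sq_add_cos_sq (2 * Real.pi * (k.val : ℝ) / N)]

theorem cos_le (k : ZMod N) (hk : k ≠ 0) :
    Real.cos (2 * Real.pi * (k.val : ℝ) / N) ≤ Real.cos (2 * Real.pi / N) := by
  have hv : 1 ≤ k.val := by
    rw [Nat.one_le_iff_ne_zero]
    intro h
    exact hk ((ZMod.val_eq_zero k).1 h)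
  have hv2 : k.val < N := ZMod.val_lt k
  have hNpos : (0 : ℝ) < N := by
    have := NeZero.pos N
    exact_mod_cast this
  have hpi := Real.pi_pos
  have h1 : (1 : ℝ) ≤ k.val := by exact_mod_cast hv
  have h2 : (k.val : ℝ) + 1 ≤ N := by exact_mod_cast hv2
  have hbase : 0 ≤ 2 * Real.pi / N := by positivity
  by_cases hc : 2 * Real.pi * (k.val : ℝ) / N ≤ Real.pi
  · apply Real.cos_le_cos_of_nonneg_of_le_pi hbase hc
    apply div_le_div_of_nonneg_right _ hNpos.le
    nlinarith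
  · push Not at hc
    rw [← Real.cos_two_pi_sub]
    apply Real.cos_le_cos_of_nonneg_of_le_pi hbase
    · linarith
    · rw [le_sub_iff_add_le, ← add_div, div_le_iff₀ hNpos]
      nlinarith

/-- Sharp cyclic discrete Wirtinger inequality. -/
theorem wirtinger (g : ZMod N → ℝ) (hg : ∑ j, g j = 0) :
    2 * (1 - Real.cos (2 * Real.pi / N)) * ∑ j, g j ^ 2 ≤ ∑ j, (g (j + 1) - g j) ^ 2 := by
  have hNpos : (0 : ℝ) < N := by
    have := NeZero.pos N
    exact_mod_cast this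
  let Φ : ZMod N → ℂ := fun j => (g j : ℂ)
  let Δ : ZMod N → ℂ := fun j => Φ (j + 1) - Φ j
  have hΔ : ∀ k, dft Δ k = (stdAddChar k - 1) * dft Φ k := by
    intro k
    have : Δ = (fun j => Φ (j + 1)) - Φ := by
      ext j
      rfl
    rw [this, map_sub, Pi.sub_apply, dft_shift]
    ring
  have h0 : dft Φ 0 = 0 := by
    rw [dft_apply_zero]
    simp only [Φ]
    exact_mod_cast hg
  have hP1 := parseval Φ
  have hP2 := parseval Δ
  have e1 : ∀ j, ‖Φ j‖ ^ 2 = g j ^ 2 := by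
    intro j
    simp [Φ]
  have e2 : ∀ j, ‖Δ j‖ ^ 2 = (g (j + 1) - g j) ^ 2 := by
    intro j
    simp only [Δ, Φ]
    rw [← Complex.ofReal_sub, Complex.norm_real, Real.norm_eq_abs, sq_abs]
  simp_rw [e1] at hP1
  simp_rw [e2] at hP2
  have h3 : 2 * (1 - Real.cos (2 * Real.pi / N)) * ∑ k, ‖dft Φ k‖ ^ 2 ≤ ∑ k, ‖dft Δ k‖ ^ 2 := by
    rw [Finset.mul_sum]
    apply Finset.sum_le_sum
    intro k _
    rw [hΔ, norm_mul, mul_pow, norm_stdAddChar_sub_one]
    by_cases hk : k = 0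
    · subst hk
      simp [h0]
    · have := cos_le k hk
      have h4 : 0 ≤ ‖dft Φ k‖ ^ 2 := by positivity
      nlinarith
  rw [hP1, hP2] at h3
  have : (N : ℝ) * (2 * (1 - Real.cos (2 * Real.pi / N)) * ∑ j, g j ^ 2) ≤
      N * ∑ j, (g (j + 1) - g j) ^ 2 := by
    calc (N : ℝ) * (2 * (1 - Real.cos (2 * Real.pi / N)) * ∑ j, g j ^ 2)
        = 2 * (1 - Real.cos (2 * Real.pi / N)) * (N * ∑ j, g j ^ 2) := by ring
      _ ≤ _ := h3
  exact le_of_mul_le_mul_left this hNpos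

end Pool.Agent.X141.Wirt
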